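import Pool.Agent.R973.Cut.Defs

/-!
# Plateaus exclude cutoff
-/

set_option autoImplicit false

open Filter Topology

namespace Pool.Agent.R973.Cut

/-- a plateau between the times `T1` and `T2` excludes a cutoff -/
theorem not_cutoff {D : ℕ → ℝ → ℝ} {t T1 T2 : ℕ → ℝ} {a b : ℝ} (ha : 0 < a)
    (hb : (b : EReal) < height D) (h12 : ∀ n, 6 * T1 n ≤ 5 * T2 n)
    (h2 : ∀ᶠ n in atTop, ∀ s, 0 ≤ s → s ≤ T2 n → a ≤ D n s)
    (h1 : ∀ᶠ n in atTop, ∀ s, T1 n ≤ s → D n s ≤ b)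
    (ht : ∀ᶠ n in atTop, 0 < t n) : ¬ Cutoff D t := by
  intro h
  obtain ⟨hu, hv⟩ := h (1 / 11) (by norm_num) (by norm_num)
  have hu' := hu.eventually_lt_const (show (0 : EReal) < (a : EReal) by exact_mod_cast ha)
  have hv' := hv.eventually_const_lt hb
  obtain ⟨n, hn1, hn2, hn3, hn4, hn5⟩ := (hu'.and (hv'.and (h2.and (h1.and ht)))).exists
  have hn1' : D n ((1 + 1 / 11) * t n) < a := by exact_mod_cast hn1
  have hn2' : b < D n ((1 - 1 / 11) * t n) := by exact_mod_cast hn2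
  have e1 : T2 n < (1 + 1 / 11) * t n := by
    by_contra hc
    exact absurd (hn3 _ (by positivity) (not_lt.1 hc)) (not_le.2 hn1')
  have e2 : (1 - 1 / 11) * t n < T1 n := by
    by_contra hc
    exact absurd (hn4 _ (not_lt.1 hc)) (not_le.2 hn2')
  have := h12 n
  linarith

/-- a plateau between the times `T1` and `T2` excludes a cutoff with any window `b = o(t)` -/
theorem not_windowCutoff {D : ℕ → ℝ → ℝ} {t T1 T2 w : ℕ → ℝ} {a b : ℝ} (ha : 0 < a)
    (hb : (b : EReal) < height D) (h12 : ∀ n, 6 * T1 n ≤ 5 * T2 n)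
    (h2 : ∀ᶠ n in atTop, ∀ s, 0 ≤ s → s ≤ T2 n → a ≤ D n s)
    (h1 : ∀ᶠ n in atTop, ∀ s, T1 n ≤ s → D n s ≤ b)
    (ht : ∀ᶠ n in atTop, 0 < t n) (hw : ∀ n, 0 ≤ w n) : ¬ WindowCutoff D t w := by
  rintro ⟨h0, hu, hv⟩
  have hu' := hu.eventually_lt_const (show (0 : EReal) < (a : EReal) by exact_mod_cast ha)
  have hv' := hv.eventually_const_lt hb
  obtain ⟨c1, hc1, hc1'⟩ := (hu'.and (eventually_gt_atTop 0)).exists
  obtain ⟨c2, hc2, hc2'⟩ := (hv'.and (eventually_lt_atBot 0)).exists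
  have hu2 := Filter.eventually_lt_of_limsup_lt hc1
  have hv2 := Filter.eventually_lt_of_lt_liminf hc2
  have hw1 : ∀ᶠ n in atTop, w n / t n < 1 / (11 * c1) := h0.eventually_lt_const (by positivity)
  have hw2 : ∀ᶠ n in atTop, w n / t n < 1 / (11 * (-c2)) :=
    h0.eventually_lt_const (by have : 0 < -c2 := by linarith
                               positivity)
  obtain ⟨n, hn1, hn2, hn3, hn4, hn5, hn6, hn7⟩ :=
    (hu2.and (hv2.and (h2.and (h1.and (ht.and (hw1.and hw2)))))).exists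
  have hn1' : D n (t n + c1 * w n) < a := by exact_mod_cast hn1
  have hn2' : b < D n (t n + c2 * w n) := by exact_mod_cast hn2
  have e1 : T2 n < t n + c1 * w n := by
    by_contra hc
    refine absurd (hn3 _ ?_ (not_lt.1 hc)) (not_le.2 hn1')
    have := mul_nonneg hc1'.le (hw n)
    linarith
  have e2 : t n + c2 * w n < T1 n := by
    by_contra hc
    exact absurd (hn4 _ (not_lt.1 hc)) (not_le.2 hn2')
  have f1 : c1 * w n ≤ t n / 11 := by
    rw [div_lt_div_iff₀ hn5 (by positivity)] at hn6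
    linarith
  have f2 : -c2 * w n ≤ t n / 11 := by
    have hc : 0 < -c2 := by linarith
    rw [div_lt_div_iff₀ hn5 (by positivity)] at hn7
    linarith
  have := h12 n
  linarith

/-- lower bounds for mixing times -/
theorem le_mixingTime {D : ℕ → ℝ → ℝ} {ε T : ℝ} {n : ℕ} (hne : ∃ s, 0 ≤ s ∧ D n s ≤ ε)
    (h : ∀ s, 0 ≤ s → s < T → ε < D n s) : T ≤ mixingTime D ε n := by
  refine le_csInf hne ?_
  rintro s ⟨hs0, hs⟩
  by_contra hc
  exact absurd (h s hs0 (not_le.1 hc)) (not_lt.2 hs)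

/-- The abstract counterexample. -/
theorem counterexample {D : ℕ → ℝ → ℝ} {g T1 T2 : ℕ → ℝ} {a b c : ℝ} (ha : 0 < a)
    (hb : (b : EReal) < height D) (h12 : ∀ n, 6 * T1 n ≤ 5 * T2 n)
    (h2 : ∀ᶠ n in atTop, ∀ s, 0 ≤ s → s ≤ T2 n → a ≤ D n s)
    (h1 : ∀ᶠ n in atTop, ∀ s, T1 n ≤ s → D n s ≤ b)
    (hc : 0 < c) (hg : ∀ n, c ≤ g n) {ε : ℝ}
    (hne : ∀ n, ∃ s, 0 ≤ s ∧ D n s ≤ ε) {T : ℕ → ℝ} (hT : Tendsto T atTop atTop)
    (h : ∀ᶠ n in atTop, ∀ s, 0 ≤ s → s < T n → ε < D n s) :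
    ProductCondition g (mixingTime D ε) ∧ ¬ Cutoff D (mixingTime D ε) ∧
      ¬ WindowCutoff D (mixingTime D ε) (fun n => (g n)⁻¹) := by
  have hle : ∀ᶠ n in atTop, T n ≤ mixingTime D ε n := by
    filter_upwards [h] with n hn
    exact le_mixingTime (hne n) hn
  have hmix : Tendsto (mixingTime D ε) atTop atTop := tendsto_atTop_mono' atTop hle hT
  have ht : ∀ᶠ n in atTop, 0 < mixingTime D ε n := hmix.eventually_gt_atTop 0
  refine ⟨?_, not_cutoff ha hb h12 h2 h1 ht, not_windowCutoff ha hb h12 h2 h1 ht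
    (fun n => inv_nonneg.2 (hc.le.trans (hg n)))⟩
  have h3 : Tendsto (fun n => c * mixingTime D ε n) atTop atTop := hmix.const_mul_atTop hc
  refine tendsto_atTop_mono' atTop ?_ h3
  filter_upwards [ht] with n hn
  exact mul_le_mul_of_nonneg_right (hg n) hn.le

end Pool.Agent.R973.Cut
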