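import Pool.Agent.R973.Cut.Exp

/-!
# The pure birth chain with a bifurcation

The states are `0, …, 8 k + 1`; the chain moves from `i` to `i + 1` at rate one, except that from
`4 k` it moves to `4 k + 1` at rate `q` and to `8 k + 1` at rate `1 - q`; `8 k + 1` is absorbing.
-/

set_option autoImplicit false

open Finset

namespace Pool.Agent.R973.Cut

/-- the probability of the slow branch -/
noncomputable def q (k : ℕ) : ℝ := 1 / (k : ℝ) ^ 2

theorem q_nonneg (k : ℕ) : 0 ≤ q k := by unfold q; positivity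

theorem q_le_one (k : ℕ) : q k ≤ 1 := by
  unfold q
  rcases Nat.eq_zero_or_pos k with h | h
  · subst h; simp
  · rw [div_le_one (by positivity)]
    have : (1 : ℝ) ≤ k := by exact_mod_cast h
    nlinarith

/-- the transition rates -/
noncomputable def l0 (k i j : ℕ) : ℝ :=
  if i = 8 * k + 1 then 0 else
    (if j = i + 1 then (if i = 4 * k then q k else 1) else 0) +
    (if j = 8 * k + 1 then (if i = 4 * k then 1 - q k else 0) else 0) - (if j = i then 1 else 0)

/-- the generator -/
noncomputable def L0 (k : ℕ) : Matrix (Fin (8 * k + 2)) (Fin (8 * k + 2)) ℝ :=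
  Matrix.of fun i j => l0 k i j

theorem l0_row (k : ℕ) (hk : 1 ≤ k) (i : ℕ) (hi : i < 8 * k + 2) :
    ∑ j ∈ range (8 * k + 2), l0 k i j = 0 := by
  unfold l0
  by_cases h : i = 8 * k + 1
  · simp [h]
  · simp only [if_neg h]
    rw [Finset.sum_sub_distrib, Finset.sum_add_distrib, Finset.sum_ite_eq', Finset.sum_ite_eq',
      Finset.sum_ite_eq', if_pos (show i + 1 ∈ range (8 * k + 2) by rw [mem_range]; omega),
      if_pos (show 8 * k + 1 ∈ range (8 * k + 2) by rw [mem_range]; omega),
      if_pos (show i ∈ range (8 * k + 2) by rw [mem_range]; omega)]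
    split_ifs <;> ring

theorem L0_gen (k : ℕ) (hk : 1 ≤ k) : IsGen (L0 k) where
  off := by
    intro i j hij
    have hij' : (j : ℕ) ≠ i := fun h => hij (Fin.ext h.symm)
    show 0 ≤ l0 k i j
    unfold l0
    have h1 := q_nonneg k
    have h2 := q_le_one k
    rw [if_neg hij']
    split_ifs <;> linarith
  row := by
    intro i
    show ∑ j : Fin (8 * k + 2), l0 k i j = 0
    rw [Fin.sum_univ_eq_sum_range (fun j => l0 k i j) (8 * k + 2)]
    exact l0_row k hk i i.2

/-- the Poisson probabilities -/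
noncomputable def pois (n : ℕ) (t : ℝ) : ℝ := Real.exp (-t) * t ^ n / n.factorial

theorem pois_nonneg (n : ℕ) {t : ℝ} (ht : 0 ≤ t) : 0 ≤ pois n t := by unfold pois; positivity

theorem pois_zero_zero : pois 0 0 = 1 := by simp [pois]

theorem pois_succ_zero (n : ℕ) : pois (n + 1) 0 = 0 := by simp [pois]

theorem hasDerivAt_pois_zero (t : ℝ) : HasDerivAt (pois 0) (-pois 0 t) t := by
  have h : HasDerivAt (fun u : ℝ => Real.exp (-u)) (Real.exp (-t) * (-1)) t :=
    (hasDerivAt_neg t).exp
  have e : pois 0 = fun u : ℝ => Real.exp (-u) := by funext u; simp [pois]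
  rw [e]
  exact h.congr_deriv (by ring)

theorem hasDerivAt_pois_succ (n : ℕ) (t : ℝ) :
    HasDerivAt (pois (n + 1)) (pois n t - pois (n + 1) t) t := by
  have h : HasDerivAt (fun u : ℝ => Real.exp (-u)) (Real.exp (-t) * (-1)) t :=
    (hasDerivAt_neg t).exp
  have h2 := (h.mul (hasDerivAt_pow (n + 1) t)).div_const ((n + 1).factorial : ℝ)
  have e : pois (n + 1) = fun u : ℝ => Real.exp (-u) * u ^ (n + 1) / (n + 1).factorial := rfl
  rw [e]
  refine HasDerivAt.congr_deriv (f := fun u : ℝ => Real.exp (-u) * u ^ (n + 1) / (n + 1).factorial)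
    h2 ?_
  unfold pois
  rw [Nat.factorial_succ]
  push_cast
  have h3 : (n.factorial : ℝ) ≠ 0 := by positivity
  have h4 : (n : ℝ) + 1 ≠ 0 := by positivity
  field_simp
  ring

/-- the transition probabilities to the states different from the absorbing one -/
noncomputable def kern (k : ℕ) (t : ℝ) (i j : ℕ) : ℝ :=
  if i ≤ j then (if i ≤ 4 * k ∧ 4 * k < j then q k else 1) * pois (j - i) t else 0

theorem kern_nonneg (k : ℕ) {t : ℝ} (ht : 0 ≤ t) (i j : ℕ) : 0 ≤ kern k t i j := by
  unfold kern
  have := q_nonneg k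
  have := pois_nonneg (j - i) ht
  split_ifs <;> positivity

theorem hasDerivAt_kern_zero (k : ℕ) (t : ℝ) (i : ℕ) :
    HasDerivAt (fun u => kern k u i 0) (-kern k t i 0) t := by
  unfold kern
  by_cases h : i ≤ 0
  · have hi : i = 0 := by omega
    subst hi
    simp only [le_refl, if_true, Nat.sub_self]
    exact ((hasDerivAt_pois_zero t).const_mul _).congr_deriv (by ring)
  · simp only [if_neg h, neg_zero]
    exact hasDerivAt_const t 0

theorem hasDerivAt_kern_succ (k : ℕ) (t : ℝ) (i j : ℕ) :
    HasDerivAt (fun u => kern k u i (j + 1))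
      (kern k t i j * (if j = 4 * k then q k else 1) - kern k t i (j + 1)) t := by
  unfold kern
  rcases lt_trichotomy i (j + 1) with h | h | h
  · have h1 : i ≤ j := by omega
    have h2 : i ≤ j + 1 := by omega
    have h3 : j + 1 - i = (j - i) + 1 := by omega
    simp only [if_pos h1, if_pos h2, h3]
    refine ((hasDerivAt_pois_succ (j - i) t).const_mul _).congr_deriv ?_
    by_cases c1 : i ≤ 4 * k ∧ 4 * k < j + 1
    · rw [if_pos c1]
      by_cases c2 : j = 4 * k
      · rw [if_pos c2, if_neg (by omega)]; ring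
      · rw [if_neg c2, if_pos (by omega)]; ring
    · rw [if_neg c1, if_neg (by omega), if_neg (by omega)]; ring
  · have h1 : ¬ i ≤ j := by omega
    simp only [if_neg h1, if_pos h.le, zero_mul, zero_sub]
    rw [h, Nat.sub_self]
    exact ((hasDerivAt_pois_zero t).const_mul _).congr_deriv (by ring)
  · have h1 : ¬ i ≤ j := by omega
    have h2 : ¬ i ≤ j + 1 := by omega
    simp only [if_neg h1, if_neg h2, zero_mul, sub_zero]
    exact hasDerivAt_const t 0

/-- all transition probabilities -/
noncomputable def kn (k : ℕ) (t : ℝ) (i j : ℕ) : ℝ :=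
  if j = 8 * k + 1 then 1 - ∑ l ∈ range (8 * k + 1), kern k t i l else kern k t i j

theorem sum_kn_l0_zero (k : ℕ) (t : ℝ) (i : ℕ) :
    ∑ z ∈ range (8 * k + 2), kn k t i z * l0 k z 0 = -kern k t i 0 := by
  rw [Finset.sum_range_succ]
  have h1 : l0 k (8 * k + 1) 0 = 0 := by simp [l0]
  rw [h1, mul_zero, add_zero]
  have h2 : ∀ z ∈ range (8 * k + 1), kn k t i z * l0 k z 0 =
      if z = 0 then -kern k t i z else 0 := by
    intro z hz
    rw [mem_range] at hz
    unfold kn l0
    rw [if_neg (by omega : ¬ z = 8 * k + 1), if_neg (by omega : ¬ z = 8 * k + 1),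
      if_neg (by omega : ¬ 0 = z + 1), if_neg (by omega : ¬ 0 = 8 * k + 1)]
    by_cases hz0 : z = 0
    · rw [if_pos hz0.symm, if_pos hz0]; ring
    · rw [if_neg (fun h => hz0 h.symm), if_neg hz0]; ring
  rw [Finset.sum_congr rfl h2, Finset.sum_ite_eq', if_pos (by rw [mem_range]; omega)]

theorem sum_kn_l0_succ (k : ℕ) (t : ℝ) (i j : ℕ) (hj : j + 1 < 8 * k + 1) :
    ∑ z ∈ range (8 * k + 2), kn k t i z * l0 k z (j + 1) =
      kern k t i j * (if j = 4 * k then q k else 1) - kern k t i (j + 1) := by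
  rw [Finset.sum_range_succ]
  have h1 : l0 k (8 * k + 1) (j + 1) = 0 := by simp [l0]
  rw [h1, mul_zero, add_zero]
  have h2 : ∀ z ∈ range (8 * k + 1), kn k t i z * l0 k z (j + 1) =
      (if z = j then kern k t i z * (if z = 4 * k then q k else 1) else 0) -
      (if z = j + 1 then kern k t i z else 0) := by
    intro z hz
    rw [mem_range] at hz
    unfold kn l0
    rw [if_neg (by omega : ¬ z = 8 * k + 1), if_neg (by omega : ¬ z = 8 * k + 1),
      if_neg (by omega : ¬ j + 1 = 8 * k + 1)]
    by_cases hz0 : z = j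
    · subst hz0
      rw [if_pos rfl, if_neg (by omega : ¬ z + 1 = z), if_pos rfl, if_neg (by omega : ¬ z = z + 1)]
      ring
    · rw [if_neg (by omega : ¬ j + 1 = z + 1), if_neg hz0]
      by_cases hz1 : z = j + 1
      · rw [if_pos hz1.symm, if_pos hz1]; ring
      · rw [if_neg (fun h => hz1 h.symm), if_neg hz1]; ring
  rw [Finset.sum_congr rfl h2, Finset.sum_sub_distrib, Finset.sum_ite_eq', Finset.sum_ite_eq',
    if_pos (show j ∈ range (8 * k + 1) by rw [mem_range]; omega),
    if_pos (show j + 1 ∈ range (8 * k + 1) by rw [mem_range]; omega)]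

theorem hasDerivAt_kern (k : ℕ) (t : ℝ) (i j : ℕ) (hj : j < 8 * k + 1) :
    HasDerivAt (fun u => kern k u i j) (∑ z ∈ range (8 * k + 2), kn k t i z * l0 k z j) t := by
  rcases j with _ | j
  · rw [sum_kn_l0_zero]; exact hasDerivAt_kern_zero k t i
  · rw [sum_kn_l0_succ k t i j hj]; exact hasDerivAt_kern_succ k t i j

theorem hasDerivAt_kn (k : ℕ) (hk : 1 ≤ k) (t : ℝ) (i j : ℕ) (hj : j < 8 * k + 2) :
    HasDerivAt (fun u => kn k u i j) (∑ z ∈ range (8 * k + 2), kn k t i z * l0 k z j) t := by
  by_cases h : j = 8 * k + 1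
  · subst h
    have e : (fun u => kn k u i (8 * k + 1)) =
        fun u => 1 - ∑ l ∈ range (8 * k + 1), kern k u i l := by
      funext u; unfold kn; rw [if_pos rfl]
    rw [e]
    have h1 : HasDerivAt (fun u => ∑ l ∈ range (8 * k + 1), kern k u i l)
        (∑ l ∈ range (8 * k + 1), ∑ z ∈ range (8 * k + 2), kn k t i z * l0 k z l) t :=
      HasDerivAt.fun_sum fun l hl => hasDerivAt_kern k t i l (mem_range.1 hl)
    refine (h1.const_sub 1).congr_deriv ?_
    have h2 : ∑ l ∈ range (8 * k + 2), ∑ z ∈ range (8 * k + 2), kn k t i z * l0 k z l = 0 := by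
      rw [Finset.sum_comm]
      refine Finset.sum_eq_zero fun z hz => ?_
      rw [← Finset.mul_sum, l0_row k hk z (mem_range.1 hz), mul_zero]
    rw [Finset.sum_range_succ] at h2
    linarith
  · have e : (fun u => kn k u i j) = fun u => kern k u i j := by
      funext u; unfold kn; rw [if_neg h]
    rw [e]
    exact hasDerivAt_kern k t i j (by omega)

theorem kern_zero (k i j : ℕ) : kern k 0 i j = if i = j then 1 else 0 := by
  unfold kern
  rcases lt_trichotomy i j with h | h | h
  · rw [if_pos h.le, if_neg (by omega : ¬ i = j)]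
    obtain ⟨d, hd⟩ : ∃ d, j - i = d + 1 := ⟨j - i - 1, by omega⟩
    rw [hd, pois_succ_zero, mul_zero]
  · rw [if_pos h.le, if_pos h, if_neg (by omega), h, Nat.sub_self, pois_zero_zero, one_mul]
  · rw [if_neg (by omega), if_neg (by omega)]

theorem exp_L0 (k : ℕ) (hk : 1 ≤ k) (t : ℝ) (i j : Fin (8 * k + 2)) :
    NormedSpace.exp (t • L0 k) i j = kn k t i j := by
  have h := exp_unique (L0 k) (fun t => Matrix.of fun i j : Fin (8 * k + 2) => kn k t i j) ?_ ?_ t
  · rw [← h]; rfl
  · ext i j
    show kn k 0 i j = (1 : Matrix _ _ ℝ) i j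
    rw [Matrix.one_apply]
    unfold kn
    by_cases hj : (j : ℕ) = 8 * k + 1
    · rw [if_pos hj]
      simp only [kern_zero]
      rw [Finset.sum_ite_eq]
      by_cases hi : (i : ℕ) = 8 * k + 1
      · rw [if_neg (by rw [mem_range]; omega), if_pos (Fin.ext (hi.trans hj.symm)), sub_zero]
      · rw [if_pos (by rw [mem_range]; have := i.2; omega),
          if_neg (fun h : i = j => hi (by rw [h]; exact hj)), sub_self]
    · rw [if_neg hj, kern_zero]
      by_cases hij : i = j
      · rw [if_pos hij, if_pos (by rw [hij])]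
      · rw [if_neg hij, if_neg (fun h => hij (Fin.ext h))]
  · intro t i j
    have h1 := hasDerivAt_kn k hk t i j j.2
    have h2 : ∑ z : Fin (8 * k + 2), kn k t i z * l0 k z j =
        ∑ z ∈ range (8 * k + 2), kn k t i z * l0 k z j :=
      Fin.sum_univ_eq_sum_range (fun z => kn k t i z * l0 k z j) (8 * k + 2)
    rw [← h2] at h1
    exact h1

end Pool.Agent.R973.Cut
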