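import Mathlib

/-!
# Bounds for the relative entropy of probability vectors
-/

set_option autoImplicit false

open Finset

namespace Pool.Agent.R973.Cut

variable {Ω : Type} [Fintype Ω] [DecidableEq Ω]

theorem mul_log_ge {u s : ℝ} (hu : 0 ≤ u) : u * (1 + s) - Real.exp s ≤ u * Real.log u := by
  rcases hu.eq_or_lt with h | h
  · rw [← h]; simp; exact (Real.exp_pos s).le
  · have h1 := Real.add_one_le_exp (s - Real.log u)
    have h2 : Real.exp s = u * Real.exp (s - Real.log u) := by
      rw [Real.exp_sub, Real.exp_log h]; field_simp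
    rw [h2]
    nlinarith

theorem term_ge {m p s : ℝ} (hm : 0 ≤ m) (hp : 0 < p) :
    m * (1 + s) - p * Real.exp s ≤ m * Real.log (m / p) := by
  have h := mul_log_ge (u := m / p) (s := s) (by positivity)
  have h2 := mul_le_mul_of_nonneg_left h hp.le
  have e1 : p * (m / p * (1 + s) - Real.exp s) = m * (1 + s) - p * Real.exp s := by
    field_simp
  have e2 : p * (m / p * Real.log (m / p)) = m * Real.log (m / p) := by
    field_simp
  linarith [e1 ▸ e2 ▸ h2]

/-- the lower bound for the relative entropy through one event -/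
theorem ent_lower (m p : Ω → ℝ) (hm : ∀ y, 0 ≤ m y) (hm1 : ∑ y, m y = 1) (hp : ∀ y, 0 < p y)
    (hp1 : ∑ y, p y = 1) (A : Finset Ω) {q a : ℝ} (hq : 0 < q) (ha : 0 < a) (haq : a ≤ q)
    (hA : q ≤ ∑ y ∈ A, m y) (hpA : ∑ y ∈ A, p y ≤ a) :
    q * (Real.log (q / a) - 1) ≤ ∑ y, m y * Real.log (m y / p y) := by
  set θ : ℝ := Real.log (q / a) with hθ
  have hθ0 : 0 ≤ θ := Real.log_nonneg ((one_le_div ha).2 haq)
  have h1 : ∀ y, m y * (1 + if y ∈ A then θ else 0) - p y * Real.exp (if y ∈ A then θ else 0) ≤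
      m y * Real.log (m y / p y) := fun y => term_ge (hm y) (hp y)
  have h2 := Finset.sum_le_sum fun y (_ : y ∈ (Finset.univ : Finset Ω)) => h1 y
  refine le_trans ?_ h2
  have e1 : ∀ y, m y * (1 + if y ∈ A then θ else 0) - p y * Real.exp (if y ∈ A then θ else 0) =
      m y - p y + ((if y ∈ A then θ * m y else 0) -
        (if y ∈ A then (Real.exp θ - 1) * p y else 0)) := by
    intro y
    split_ifs
    · ring
    · rw [Real.exp_zero]; ring
  rw [Finset.sum_congr rfl fun y _ => e1 y, Finset.sum_add_distrib, Finset.sum_sub_distrib, hm1,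
    hp1, Finset.sum_sub_distrib, Finset.sum_ite_mem, Finset.sum_ite_mem, Finset.univ_inter,
    ← Finset.mul_sum, ← Finset.mul_sum]
  have h3 : θ * q ≤ θ * ∑ y ∈ A, m y := mul_le_mul_of_nonneg_left hA hθ0
  have hexp : Real.exp θ = q / a := Real.exp_log (by positivity)
  have h4 : (Real.exp θ - 1) * ∑ y ∈ A, p y ≤ (Real.exp θ - 1) * a := by
    refine mul_le_mul_of_nonneg_left hpA ?_
    have := Real.add_one_le_exp θ
    linarith
  have h5 : (Real.exp θ - 1) * a ≤ q := by
    rw [hexp]
    have : (q / a - 1) * a = q - a := by field_simp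
    linarith
  nlinarith

/-- the upper bound for the relative entropy if most of the mass is at `z` -/
theorem ent_upper (m p : Ω → ℝ) (hm : ∀ y, 0 ≤ m y) (hm1 : ∑ y, m y = 1) (hp : ∀ y, 0 < p y)
    (z : Ω) {K a : ℝ} (hK0 : 0 ≤ K) (hK : ∀ y, -Real.log (p y) ≤ K)
    (hz : -Real.log (p z) ≤ 1) (hz0 : 0 ≤ -Real.log (p z))
    (ha : ∑ y ∈ univ.erase z, m y ≤ a) :
    ∑ y, m y * Real.log (m y / p y) ≤ 1 + a * K := by
  have hle : ∀ y, m y ≤ 1 := fun y => by
    rw [← hm1]; exact Finset.single_le_sum (fun i _ => hm i) (Finset.mem_univ y)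
  have h1 : ∀ y, m y * Real.log (m y / p y) ≤ m y * (-Real.log (p y)) := by
    intro y
    rcases (hm y).eq_or_lt with h | h
    · rw [← h]; simp
    · refine mul_le_mul_of_nonneg_left ?_ (hm y)
      rw [Real.log_div h.ne' (hp y).ne']
      have := Real.log_nonpos (hm y) (hle y)
      linarith
  calc ∑ y, m y * Real.log (m y / p y) ≤ ∑ y, m y * (-Real.log (p y)) :=
        Finset.sum_le_sum fun y _ => h1 y
    _ = m z * (-Real.log (p z)) + ∑ y ∈ univ.erase z, m y * (-Real.log (p y)) :=
        (Finset.add_sum_erase _ _ (Finset.mem_univ z)).symm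
    _ ≤ 1 + ∑ y ∈ univ.erase z, m y * K := by
        refine add_le_add ?_ (Finset.sum_le_sum fun y _ => mul_le_mul_of_nonneg_left (hK y) (hm y))
        calc m z * (-Real.log (p z)) ≤ 1 * 1 := mul_le_mul (hle z) hz hz0 zero_le_one
          _ = 1 := one_mul 1
    _ = 1 + (∑ y ∈ univ.erase z, m y) * K := by rw [Finset.sum_mul]
    _ ≤ 1 + a * K := by
        have := mul_le_mul_of_nonneg_right ha hK0
        linarith

/-- convexity of the relative entropy -/
theorem ent_convex (m p : Ω → ℝ) (hm : ∀ y, 0 ≤ m y) (hp : ∀ y, 0 < p y) {s : ℝ} (hs0 : 0 ≤ s)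
    (hs1 : s ≤ 1) :
    ∑ y, (s * m y + (1 - s) * p y) * Real.log ((s * m y + (1 - s) * p y) / p y) ≤
      s * ∑ y, m y * Real.log (m y / p y) := by
  rw [Finset.mul_sum]
  refine Finset.sum_le_sum fun y _ => ?_
  have hc := Real.convexOn_mul_log.2 (x := m y / p y) (y := 1)
    (Set.mem_Ici.2 (div_nonneg (hm y) (hp y).le)) (Set.mem_Ici.2 zero_le_one) hs0
    (sub_nonneg.2 hs1) (by ring)
  simp only [smul_eq_mul, Real.log_one, mul_zero, mul_one, add_zero] at hc
  have h2 := mul_le_mul_of_nonneg_left hc (hp y).le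
  have hpy := (hp y).ne'
  have e1 : (s * m y + (1 - s) * p y) / p y = s * (m y / p y) + (1 - s) := by
    field_simp
  have e2 : p y * ((s * (m y / p y) + (1 - s)) * Real.log (s * (m y / p y) + (1 - s))) =
      (s * m y + (1 - s) * p y) * Real.log ((s * m y + (1 - s) * p y) / p y) := by
    rw [e1]; field_simp
  have e3 : p y * (s * (m y / p y * Real.log (m y / p y))) =
      s * (m y * Real.log (m y / p y)) := by
    field_simp
  rw [e2, e3] at h2
  exact h2

end Pool.Agent.R973.Cut
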