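import Pool.Agent.R973.Cut.Est
import Pool.Agent.R973.Cut.Ent
import Pool.Agent.R973.Cut.Abs

/-!
# The family of chains and the bounds for its distances
-/

set_option autoImplicit false

open Finset Filter Topology

namespace Pool.Agent.R973.Cut

theorem Lj_apply (k : ℕ) (x y : Fin (8 * k + 2)) :
    Lj k x y = Lc k x y + 1 / k * (law k y - if x = y then 1 else 0) := rfl

/-- the chains -/
noncomputable def Ch (n : ℕ) : Chain where
  Ω := Fin (8 * (n + 2) + 2)
  L := Lj (n + 2)
  law := law (n + 2)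
  rate_nonneg := by
    intro x y h
    rw [Lj_apply, if_neg h, sub_zero]
    have h1 := (Lc_gen (n + 2) (by omega)).off x y h
    have h2 := (law_pos (n + 2) y).le
    positivity
  row_sum := by
    intro x
    rw [Finset.sum_congr rfl fun y _ => Lj_apply (n + 2) x y, Finset.sum_add_distrib,
      (Lc_gen (n + 2) (by omega)).row x, ← Finset.mul_sum, Finset.sum_sub_distrib, law_sum]
    simp
  law_pos := law_pos (n + 2)
  law_sum := law_sum (n + 2)
  reversible := by
    intro x y
    have h : law (n + 2) x * Lc (n + 2) x y = law (n + 2) y * Lc (n + 2) y x :=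
      lw_rev (n + 2) x y
    rw [Lj_apply, Lj_apply]
    by_cases hxy : x = y
    · rw [hxy]
    · rw [if_neg hxy, if_neg (fun e => hxy e.symm)]
      linear_combination h
  irreducible := by
    intro x y
    by_cases h : x = y
    · rw [h]
    · refine Relation.ReflTransGen.single ?_
      rw [Lj_apply, if_neg h, sub_zero]
      have h1 := (Lc_gen (n + 2) (by omega)).off x y h
      have h2 := law_pos (n + 2) y
      have h3 : 0 < 1 / ((n + 2 : ℕ) : ℝ) * law (n + 2) y := by positivity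
      linarith

theorem heat_Ch (n : ℕ) (t : ℝ) (x y : Fin (8 * (n + 2) + 2)) :
    (Ch n).heat t x y = Real.exp (-(1 / (n + 2 : ℕ)) * t) * P (n + 2) t x y +
      (1 - Real.exp (-(1 / (n + 2 : ℕ)) * t)) * law (n + 2) y :=
  heat_eq (n + 2) (by omega) t x y

theorem law_Ch (n : ℕ) (y : Fin (8 * (n + 2) + 2)) : (Ch n).law y = law (n + 2) y := rfl

theorem variance_ne (C : Chain) (f : C.Ω → ℝ) (a b : C.Ω) (h : f a ≠ f b) :
    C.variance f ≠ 0 := by
  intro h0
  unfold Chain.variance at h0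
  rw [Finset.sum_eq_zero_iff_of_nonneg
    (fun x _ => mul_nonneg (C.law_pos x).le (sq_nonneg _))] at h0
  have h1 := (mul_eq_zero.1 (h0 a (mem_univ _))).resolve_left (C.law_pos _).ne'
  have h2 := (mul_eq_zero.1 (h0 b (mem_univ _))).resolve_left (C.law_pos _).ne'
  have h3 := (pow_eq_zero_iff two_ne_zero).1 h1
  have h4 := (pow_eq_zero_iff two_ne_zero).1 h2
  exact h (by linarith)

theorem gap_ge (n : ℕ) : 1 / 8 ≤ (Ch n).gap := by
  refine le_csInf ?_ ?_
  · obtain ⟨a, b, hab⟩ := exists_pair_ne (Ch n).Ω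
    exact ⟨_, (fun x => if x = a then (1 : ℝ) else 0),
      variance_ne (Ch n) _ a b (by rw [if_pos rfl, if_neg hab.symm]; norm_num), rfl⟩
  · rintro r ⟨f, hf, rfl⟩
    have hv : 0 < (Ch n).variance f := lt_of_le_of_ne
      (Finset.sum_nonneg fun x _ => mul_nonneg ((Ch n).law_pos x).le (sq_nonneg _)) (Ne.symm hf)
    rw [le_div_iff₀ hv]
    have h := variance_le (n + 2) (by omega) f
    have e1 : (Ch n).variance f =
        ∑ x, law (n + 2) x * (f x - ∑ y, law (n + 2) y * f y) ^ 2 := rfl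
    have e2 : (Ch n).dirichlet f = (1 / 2) * ∑ x, ∑ y, law (n + 2) x * Lj (n + 2) x y *
      (f x - f y) ^ 2 := rfl
    rw [e1, e2]
    linarith

/-! ### Separation -/

theorem sep_le (n : ℕ) {t : ℝ} (ht : 0 ≤ t) :
    (Ch n).separation t ≤ Real.exp (-(1 / (n + 2 : ℕ)) * t) := by
  refine ciSup_le fun x => ciSup_le fun y => ?_
  rw [heat_Ch n t x y, law_Ch n y]
  have hl := law_pos (n + 2) y
  have hP := P_nonneg (n + 2) (by omega) ht x y
  have he := Real.exp_pos (-(1 / ((n + 2 : ℕ) : ℝ)) * t)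
  rw [add_div, mul_div_assoc, mul_div_assoc, div_self hl.ne']
  have : 0 ≤ Real.exp (-(1 / ((n + 2 : ℕ) : ℝ)) * t) * (P (n + 2) t x y / law (n + 2) y) := by
    positivity
  linarith

theorem le_sep (n : ℕ) (t : ℝ) (x y : (Ch n).Ω) :
    1 - (Ch n).heat t x y / (Ch n).law y ≤ (Ch n).separation t := by
  refine le_trans ?_ (le_ciSup (Set.finite_range _).bddAbove x)
  exact le_ciSup (f := fun y => 1 - (Ch n).heat t x y / (Ch n).law y)
    (Set.finite_range _).bddAbove y

theorem sep_ge (n : ℕ) {t : ℝ} (ht : 0 ≤ t) :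
    Real.exp (-(1 / (n + 2 : ℕ)) * t) *
      (1 - 2 * (t / (4 * (n + 2 : ℕ) + 1) + 4 * be (n + 2) * t)) ≤ (Ch n).separation t := by
  set k := n + 2 with hk
  have hk1 : 1 ≤ k := by omega
  refine le_trans ?_ (le_sep n t (ini k) (lst k))
  rw [heat_Ch n t (ini k) (lst k), law_Ch n (lst k)]
  have hl := law_pos k (lst k)
  have hl2 : 1 / 2 ≤ law k (lst k) := half_le_lw_last k (by omega)
  have he := Real.exp_pos (-(1 / (k : ℝ)) * t)
  have hP0 := P_nonneg k hk1 ht (ini k) (lst k)
  have hP : P k t (ini k) (lst k) ≤ t / (4 * k + 1) + 4 * be k * t := by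
    have h1 := P_fast k hk1 ht (8 * k + 1) (by omega) (le_refl _)
    rw [← erase_lst] at h1
    have h2 := Finset.add_sum_erase univ (fun y => P k t (ini k) y) (mem_univ (lst k))
    rw [P_row k hk1] at h2
    linarith
  rw [add_div, mul_div_assoc, mul_div_assoc, div_self hl.ne']
  have h3 : P k t (ini k) (lst k) / law k (lst k) ≤ 2 * (t / (4 * k + 1) + 4 * be k * t) := by
    rw [div_le_iff₀ hl]
    nlinarith
  have h4 := mul_le_mul_of_nonneg_left h3 he.le
  linarith

theorem sep_zero (n : ℕ) : (Ch n).separation 0 = 1 := by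
  apply le_antisymm
  · have := sep_le n (le_refl 0)
    rwa [mul_zero, Real.exp_zero] at this
  · have := sep_ge n (le_refl 0)
    simpa using this

/-! ### Relative entropy -/

theorem le_entropy (n : ℕ) (t : ℝ) (x : (Ch n).Ω) :
    ∑ y, (Ch n).heat t x y * Real.log ((Ch n).heat t x y / (Ch n).law y) ≤ (Ch n).entropy t :=
  le_ciSup (f := fun x => ∑ y, (Ch n).heat t x y * Real.log ((Ch n).heat t x y / (Ch n).law y))
    (Set.finite_range _).bddAbove x

/-- the lower bound for the relative entropy through the event to be in the first states -/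
theorem entropy_ge (n : ℕ) {t p : ℝ} (ht : 0 ≤ t) (hp : 0 < p)
    (ha : 8 * Real.exp (-((n + 2 : ℕ) : ℝ) ^ 2) ≤ p)
    (hA : p ≤ ∑ j ∈ fst (n + 2) (7 * (n + 2) + 1),
      NormedSpace.exp (t • Lj (n + 2)) (ini (n + 2)) j) :
    p * (Real.log (p / (8 * Real.exp (-((n + 2 : ℕ) : ℝ) ^ 2))) - 1) ≤ (Ch n).entropy t := by
  set k := n + 2 with hk
  have hk1 : 1 ≤ k := by omega
  refine le_trans ?_ (le_entropy n t (ini k))
  refine ent_lower (fun y => (Ch n).heat t (ini k) y) (fun y => (Ch n).law y)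
    (fun y => heat_nonneg k hk1 ht (ini k) y) (heat_row k hk1 t (ini k)) (Ch n).law_pos
    (Ch n).law_sum (fst k (7 * k + 1)) hp (by positivity) ha hA ?_
  have h := sum_fst k (7 * k + 1) (by omega) (fun j => lw k j)
  exact h.trans_le (lw_small k)

/-- the upper bound for the relative entropy -/
theorem entropy_le (n : ℕ) {t a : ℝ} (ht : 0 ≤ t)
    (ha : ∀ x, ∑ y ∈ univ.erase (lst (n + 2)), P (n + 2) t x y ≤ a) :
    (Ch n).entropy t ≤ Real.exp (-(1 / (n + 2 : ℕ)) * t) *
      (1 + a * (((n + 2 : ℕ) : ℝ) * (8 * (n + 2 : ℕ) + 1) + 1)) := by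
  set k := n + 2 with hk
  have hk1 : 1 ≤ k := by omega
  refine ciSup_le fun x => ?_
  have h1 := ent_convex (fun y => P k t x y) (law k) (fun y => P_nonneg k hk1 ht x y)
    (law_pos k) (Real.exp_pos (-(1 / (k : ℝ)) * t)).le (rate_le_one k ht)
  have h2 : ∑ y, (Ch n).heat t x y * Real.log ((Ch n).heat t x y / (Ch n).law y) =
      ∑ y, (Real.exp (-(1 / (k : ℝ)) * t) * P k t x y +
        (1 - Real.exp (-(1 / (k : ℝ)) * t)) * law k y) *
      Real.log ((Real.exp (-(1 / (k : ℝ)) * t) * P k t x y +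
        (1 - Real.exp (-(1 / (k : ℝ)) * t)) * law k y) / law k y) := by
    refine Finset.sum_congr rfl fun y _ => ?_
    rw [heat_Ch n t x y, law_Ch n y]
  rw [h2]
  refine h1.trans ?_
  refine mul_le_mul_of_nonneg_left ?_ (Real.exp_pos _).le
  exact ent_upper (fun y => P k t x y) (law k) (fun y => P_nonneg k hk1 ht x y) (P_row k hk1 t x)
    (law_pos k) (lst k) (by positivity) (fun y => neg_log_lw_le k (by omega) y)
    (neg_log_lw_last_le k (by omega)) (neg_log_lw_last_nonneg k) (ha x)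

end Pool.Agent.R973.Cut
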