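import Mathlib

/-!
# Finite reversible Markov chains in continuous time and their cutoff conditions
-/

set_option autoImplicit false

open Filter Topology

namespace Pool.Agent.R973.Cut

/-- An irreducible, reversible, continuous-time Markov chain on a finite set with at least two
points: `L` is the generator (the jump rates off the diagonal, with vanishing row sums) and `law`
is the stationary distribution. -/
structure Chain where
  /-- the state space -/
  Ω : Type
  [fin : Fintype Ω]
  [dec : DecidableEq Ω]
  [nt : Nontrivial Ω]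
  /-- the generator -/
  L : Matrix Ω Ω ℝ
  /-- the stationary distribution -/
  law : Ω → ℝ
  rate_nonneg : ∀ x y, x ≠ y → 0 ≤ L x y
  row_sum : ∀ x, ∑ y, L x y = 0
  law_pos : ∀ x, 0 < law x
  law_sum : ∑ x, law x = 1
  reversible : ∀ x y, law x * L x y = law y * L y x
  irreducible : ∀ x y, Relation.ReflTransGen (fun a b => 0 < L a b) x y

attribute [instance] Chain.fin Chain.dec Chain.nt

namespace Chain

variable (C : Chain)

/-- the heat kernel `H_t(x, y) = (exp (t L)) (x, y)` -/
noncomputable def heat (t : ℝ) : Matrix C.Ω C.Ω ℝ := NormedSpace.exp (t • C.L)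

/-- the variance of a function under the stationary distribution -/
noncomputable def variance (f : C.Ω → ℝ) : ℝ :=
  ∑ x, C.law x * (f x - ∑ y, C.law y * f y) ^ 2

/-- the Dirichlet form -/
noncomputable def dirichlet (f : C.Ω → ℝ) : ℝ :=
  (1 / 2) * ∑ x, ∑ y, C.law x * C.L x y * (f x - f y) ^ 2

/-- the spectral gap: the least value of the Rayleigh quotient of non-constant functions -/
noncomputable def gap : ℝ :=
  sInf {r | ∃ f : C.Ω → ℝ, C.variance f ≠ 0 ∧ r = C.dirichlet f / C.variance f}

/-- the separation distance from equilibrium at time `t`, from the worst starting point -/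
noncomputable def separation (t : ℝ) : ℝ :=
  ⨆ x : C.Ω, ⨆ y : C.Ω, (1 - C.heat t x y / C.law y)

/-- the relative entropy with respect to equilibrium at time `t`, from the worst starting point -/
noncomputable def entropy (t : ℝ) : ℝ :=
  ⨆ x : C.Ω, ∑ y : C.Ω, C.heat t x y * Real.log (C.heat t x y / C.law y)

end Chain

/-- the limit superior `M` of the distances at time zero -/
noncomputable def height (D : ℕ → ℝ → ℝ) : EReal := limsup (fun n => (D n 0 : EReal)) atTop

/-- the mixing time: the least time at which the distance is at most `ε` -/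
noncomputable def mixingTime (D : ℕ → ℝ → ℝ) (ε : ℝ) (n : ℕ) : ℝ := sInf {t | 0 ≤ t ∧ D n t ≤ ε}

/-- condition (1): the product of the spectral gap `g` and the mixing time `t` tends to infinity -/
def ProductCondition (g t : ℕ → ℝ) : Prop := Tendsto (fun n => g n * t n) atTop atTop

/-- condition (2): cutoff at time `t` -/
def Cutoff (D : ℕ → ℝ → ℝ) (t : ℕ → ℝ) : Prop :=
  ∀ δ : ℝ, 0 < δ → δ < 1 →
    Tendsto (fun n => (D n ((1 + δ) * t n) : EReal)) atTop (𝓝 0) ∧
    Tendsto (fun n => (D n ((1 - δ) * t n) : EReal)) atTop (𝓝 (height D))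

/-- a `(t, b)` cutoff, where `b / t → 0`; condition (3) is the case `b = 1 / gap` -/
def WindowCutoff (D : ℕ → ℝ → ℝ) (t b : ℕ → ℝ) : Prop :=
  Tendsto (fun n => b n / t n) atTop (𝓝 0) ∧
  Tendsto (fun c : ℝ => limsup (fun n => (D n (t n + c * b n) : EReal)) atTop) atTop (𝓝 0) ∧
  Tendsto (fun c : ℝ => liminf (fun n => (D n (t n + c * b n) : EReal)) atTop) atBot
    (𝓝 (height D))

end Pool.Agent.R973.Cut
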