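import Pool.Agent.R973.Cut.Gap

/-!
# Estimates for the heat kernel
-/

set_option autoImplicit false

open Finset

namespace Pool.Agent.R973.Cut

/-- the last state -/
def lst (k : ℕ) : Fin (8 * k + 2) := ⟨8 * k + 1, by omega⟩

/-- the first states -/
def fst (k n : ℕ) : Finset (Fin (8 * k + 2)) := univ.filter fun j => (j : ℕ) < n

theorem erase_lst (k : ℕ) : univ.erase (lst k) = fst k (8 * k + 1) := by
  ext j
  unfold lst fst
  rw [Finset.mem_erase, Finset.mem_filter]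
  have := j.2
  constructor
  · rintro ⟨h, _⟩
    refine ⟨mem_univ _, ?_⟩
    have : (j : ℕ) ≠ 8 * k + 1 := fun e => h (Fin.ext e)
    omega
  · rintro ⟨_, h⟩
    refine ⟨fun e => ?_, mem_univ _⟩
    rw [e] at h
    simp at h

theorem sum_fst (k n : ℕ) (hn : n ≤ 8 * k + 1) (F : ℕ → ℝ) :
    ∑ j ∈ fst k n, F j = ∑ j ∈ range n, F j := by
  unfold fst
  rw [Finset.sum_filter, Fin.sum_univ_eq_sum_range (fun j => if j < n then F j else 0) (8 * k + 2),
    ← Finset.sum_filter]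
  congr 1
  ext j
  rw [mem_filter, mem_range, mem_range]
  omega

/-- the semigroup of the chain without jumps to equilibrium -/
noncomputable def P (k : ℕ) (t : ℝ) : Matrix (Fin (8 * k + 2)) (Fin (8 * k + 2)) ℝ :=
  NormedSpace.exp (t • Lc k)

theorem P_approx (k : ℕ) (hk : 1 ≤ k) {t : ℝ} (ht : 0 ≤ t) (n : ℕ) (hn : n ≤ 8 * k + 1)
    (x : Fin (8 * k + 2)) :
    |∑ j ∈ range n, kern k t x j - ∑ j ∈ fst k n, P k t x j| ≤ 4 * be k * t := by
  have h := perturb (Lc_gen k hk) (L0_gen k hk) (η := 4 * be k) (fun x => Lc_diff k x) ht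
    (fun j => if (j : ℕ) < n then 1 else 0) (fun y => by split_ifs <;> simp) x
  have e1 : ∑ y, NormedSpace.exp (t • L0 k) x y * (if (y : ℕ) < n then (1 : ℝ) else 0) =
      ∑ j ∈ range n, kern k t x j := by
    rw [← sum_fst k n hn (fun j => kern k t x j)]
    unfold fst
    rw [Finset.sum_filter]
    refine Finset.sum_congr rfl fun y _ => ?_
    rw [exp_L0 k hk t x y]
    unfold kn
    split_ifs with h1 h2
    · omega
    · ring
    · ring
    · ring
  have e2 : ∑ y, NormedSpace.exp (t • Lc k) x y * (if (y : ℕ) < n then (1 : ℝ) else 0) =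
      ∑ j ∈ fst k n, P k t x j := by
    unfold fst
    rw [Finset.sum_filter]
    refine Finset.sum_congr rfl fun y _ => ?_
    unfold P
    split_ifs <;> ring
  rw [e1, e2] at h
  exact h

theorem P_nonneg (k : ℕ) (hk : 1 ≤ k) {t : ℝ} (ht : 0 ≤ t) (x y : Fin (8 * k + 2)) :
    0 ≤ P k t x y := (Lc_gen k hk).exp_nonneg ht x y

theorem P_row (k : ℕ) (hk : 1 ≤ k) (t : ℝ) (x : Fin (8 * k + 2)) : ∑ y, P k t x y = 1 :=
  (Lc_gen k hk).exp_row t x

/-- the probability not to be in the last state -/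
theorem P_upper0 (k : ℕ) (hk : 1 ≤ k) (x : Fin (8 * k + 2)) :
    ∑ y ∈ univ.erase (lst k), P k (5 * k) x y ≤ (9 / 10 : ℝ) ^ k + q k + 20 * k * be k := by
  rw [erase_lst]
  have ht : (0 : ℝ) ≤ 5 * k := by positivity
  have h1 := P_approx k hk ht (8 * k + 1) (le_refl _) x
  have h2 := sum_kern_le k ht x
  have h3 := sum_pois_le k
  have h4 := (abs_le.1 h1).1
  linarith

theorem P_upper (k : ℕ) (hk : 1 ≤ k) {t : ℝ} (ht : 5 * k ≤ t) (x : Fin (8 * k + 2)) :
    ∑ y ∈ univ.erase (lst k), P k t x y ≤ (9 / 10 : ℝ) ^ k + q k + 20 * k * be k := by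
  have e : P k t = P k (t - 5 * k) * P k (5 * k) := by
    unfold P
    rw [← exp_add]; congr 2; ring
  have hs : 0 ≤ t - 5 * k := by linarith
  rw [e]
  have e2 : ∑ y ∈ univ.erase (lst k), (P k (t - 5 * k) * P k (5 * k)) x y =
      ∑ z, P k (t - 5 * k) x z * ∑ y ∈ univ.erase (lst k), P k (5 * k) z y := by
    simp_rw [Matrix.mul_apply, Finset.mul_sum]
    rw [Finset.sum_comm]
  rw [e2]
  calc ∑ z, P k (t - 5 * k) x z * ∑ y ∈ univ.erase (lst k), P k (5 * k) z y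
      ≤ ∑ z, P k (t - 5 * k) x z * ((9 / 10 : ℝ) ^ k + q k + 20 * k * be k) :=
        Finset.sum_le_sum fun z _ =>
          mul_le_mul_of_nonneg_left (P_upper0 k hk z) (P_nonneg k hk hs x z)
    _ = _ := by rw [← Finset.sum_mul, P_row k hk, one_mul]

/-- the first state -/
def ini (k : ℕ) : Fin (8 * k + 2) := ⟨0, by omega⟩

theorem P_slow (k : ℕ) (hk : 1 ≤ k) {t : ℝ} (ht : 0 ≤ t) (ht6 : t ≤ 6 * k) :
    q k / 7 - 24 * k * be k ≤ ∑ j ∈ fst k (7 * k + 1), P k t (ini k) j := by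
  have h1 := (abs_le.1 (P_approx k hk ht (7 * k + 1) (by omega) (ini k))).2
  have h2 : q k / 7 ≤ ∑ j ∈ range (7 * k + 1), kern k t (ini k : ℕ) j := slow_lower k ht ht6
  have h3 : 4 * be k * t ≤ 4 * be k * (6 * k) :=
    mul_le_mul_of_nonneg_left ht6 (by have := be_pos k; positivity)
  linarith

theorem P_fast (k : ℕ) (hk : 1 ≤ k) {t : ℝ} (ht : 0 ≤ t) (n : ℕ) (hn : 4 * k + 1 ≤ n)
    (hn8 : n ≤ 8 * k + 1) :
    1 - t / (4 * k + 1) - 4 * be k * t ≤ ∑ j ∈ fst k n, P k t (ini k) j := by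
  have h1 := (abs_le.1 (P_approx k hk ht n hn8 (ini k))).2
  have h2 : 1 - t / (4 * k + 1) ≤ ∑ j ∈ range (4 * k + 1), kern k t (ini k : ℕ) j :=
    fast_lower k ht
  have h3 : ∑ j ∈ range (4 * k + 1), kern k t (ini k : ℕ) j ≤
      ∑ j ∈ range n, kern k t (ini k : ℕ) j :=
    Finset.sum_le_sum_of_subset_of_nonneg (Finset.range_subset_range.2 hn)
      fun j _ _ => kern_nonneg k ht _ j
  linarith

/-- the semigroup of the counterexample -/
theorem heat_eq (k : ℕ) (hk : 1 ≤ k) (t : ℝ) (x y : Fin (8 * k + 2)) :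
    NormedSpace.exp (t • Lj k) x y =
      Real.exp (-(1 / k) * t) * P k t x y + (1 - Real.exp (-(1 / k) * t)) * law k y :=
  exp_jump (Lc_gen k hk) (law k) (law_sum k) (law_stat k hk) (1 / k) t x y

theorem rate_le_one (k : ℕ) {t : ℝ} (ht : 0 ≤ t) : Real.exp (-(1 / k) * t) ≤ 1 := by
  rw [Real.exp_le_one_iff]
  have : (0 : ℝ) ≤ 1 / k := by positivity
  nlinarith

theorem heat_nonneg (k : ℕ) (hk : 1 ≤ k) {t : ℝ} (ht : 0 ≤ t) (x y : Fin (8 * k + 2)) :
    0 ≤ NormedSpace.exp (t • Lj k) x y := by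
  rw [heat_eq k hk]
  have h1 := P_nonneg k hk ht x y
  have h2 := rate_le_one k ht
  have h3 := (law_pos k y).le
  have h4 : 0 ≤ 1 - Real.exp (-(1 / k) * t) := by linarith
  positivity

theorem heat_row (k : ℕ) (hk : 1 ≤ k) (t : ℝ) (x : Fin (8 * k + 2)) :
    ∑ y, NormedSpace.exp (t • Lj k) x y = 1 := by
  rw [Finset.sum_congr rfl fun y _ => heat_eq k hk t x y, Finset.sum_add_distrib,
    ← Finset.mul_sum, ← Finset.mul_sum, P_row k hk, law_sum]
  ring

theorem heat_event (k : ℕ) (hk : 1 ≤ k) {t : ℝ} (ht : 0 ≤ t) (A : Finset (Fin (8 * k + 2)))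
    (x : Fin (8 * k + 2)) :
    Real.exp (-(1 / k) * t) * ∑ y ∈ A, P k t x y ≤ ∑ y ∈ A, NormedSpace.exp (t • Lj k) x y := by
  rw [Finset.mul_sum]
  refine Finset.sum_le_sum fun y _ => ?_
  rw [heat_eq k hk]
  have h2 := rate_le_one k ht
  have h3 := (law_pos k y).le
  have h4 : 0 ≤ 1 - Real.exp (-(1 / k) * t) := by linarith
  have := mul_nonneg h4 h3
  linarith

end Pool.Agent.R973.Cut
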