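import Mathlib

/-!
# Exponentials of generators
-/

set_option autoImplicit false

open Finset

namespace Pool.Agent.R973.Cut

variable {Ω : Type} [Fintype Ω] [DecidableEq Ω]

section deriv

attribute [local instance] Matrix.linftyOpNormedAddCommGroup Matrix.linftyOpNormedSpace
  Matrix.linftyOpNormedRing Matrix.linftyOpNormedAlgebra

theorem hasDerivAt_exp (A : Matrix Ω Ω ℝ) (t : ℝ) (x y : Ω) :
    HasDerivAt (fun u : ℝ => NormedSpace.exp (u • A) x y)
      (∑ z, NormedSpace.exp (t • A) x z * A z y) t := by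
  have h := hasDerivAt_exp_smul_const (𝕂 := ℝ) A t
  have h2 := ((Matrix.entryLinearMap ℝ ℝ x y).toContinuousLinearMap.hasFDerivAt
    (x := NormedSpace.exp (t • A))).comp_hasDerivAt t h
  exact h2.congr_deriv (by rw [← Matrix.mul_apply]; rfl)

theorem hasDerivAt_exp' (A : Matrix Ω Ω ℝ) (t : ℝ) (x y : Ω) :
    HasDerivAt (fun u : ℝ => NormedSpace.exp (u • A) x y)
      (∑ z, A x z * NormedSpace.exp (t • A) z y) t := by
  have h := hasDerivAt_exp_smul_const' (𝕂 := ℝ) A t
  have h2 := ((Matrix.entryLinearMap ℝ ℝ x y).toContinuousLinearMap.hasFDerivAt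
    (x := NormedSpace.exp (t • A))).comp_hasDerivAt t h
  exact h2.congr_deriv (by rw [← Matrix.mul_apply]; rfl)

theorem exp_nonneg_of_nonneg (A : Matrix Ω Ω ℝ) (hA : ∀ x y, 0 ≤ A x y) (x y : Ω) :
    0 ≤ NormedSpace.exp A x y := by
  have hs : HasSum (fun n : ℕ => ((n.factorial : ℝ)⁻¹) • A ^ n) (NormedSpace.exp A) :=
    NormedSpace.exp_series_hasSum_exp' (𝕂 := ℝ) A
  have h2 := hs.mapL ((Matrix.entryLinearMap ℝ ℝ x y).toContinuousLinearMap)
  have hp : ∀ n : ℕ, ∀ x y, 0 ≤ (A ^ n) x y := by
    intro n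
    induction n with
    | zero => intro x y; rw [pow_zero, Matrix.one_apply]; split_ifs <;> norm_num
    | succ n ih =>
      intro x y
      rw [pow_succ, Matrix.mul_apply]
      exact Finset.sum_nonneg fun z _ => mul_nonneg (ih x z) (hA z y)
  refine h2.nonneg fun n => ?_
  show 0 ≤ ((n.factorial : ℝ)⁻¹) * (A ^ n) x y
  exact mul_nonneg (by positivity) (hp n x y)

end deriv

theorem exp_add (A : Matrix Ω Ω ℝ) (s t : ℝ) :
    NormedSpace.exp ((s + t) • A) = NormedSpace.exp (s • A) * NormedSpace.exp (t • A) := by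
  rw [add_smul]
  exact Matrix.exp_add_of_commute _ _ ((Commute.refl A).smul_left s |>.smul_right t)

theorem exp_zero_smul (A : Matrix Ω Ω ℝ) : NormedSpace.exp ((0 : ℝ) • A) = 1 := by
  rw [zero_smul, NormedSpace.exp_zero]

/-- the defining properties of a generator -/
structure IsGen (L : Matrix Ω Ω ℝ) : Prop where
  off : ∀ x y, x ≠ y → 0 ≤ L x y
  row : ∀ x, ∑ y, L x y = 0

theorem IsGen.diag_nonpos {L : Matrix Ω Ω ℝ} (h : IsGen L) (x : Ω) : L x x ≤ 0 := by
  have := h.row x
  rw [← Finset.add_sum_erase _ _ (Finset.mem_univ x)] at this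
  have h2 : 0 ≤ ∑ y ∈ Finset.univ.erase x, L x y :=
    Finset.sum_nonneg fun y hy => h.off x y (Finset.ne_of_mem_erase hy).symm
  linarith

section alg

attribute [local instance] Matrix.linftyOpNormedAddCommGroup Matrix.linftyOpNormedSpace
  Matrix.linftyOpNormedRing Matrix.linftyOpNormedAlgebra

theorem exp_smul_one (c : ℝ) :
    NormedSpace.exp (c • (1 : Matrix Ω Ω ℝ)) = Real.exp c • (1 : Matrix Ω Ω ℝ) := by
  have h := NormedSpace.algebraMap_exp_comm (𝔸 := Matrix Ω Ω ℝ) (𝕂 := ℝ) c
  rw [Algebra.algebraMap_eq_smul_one, Algebra.algebraMap_eq_smul_one] at h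
  rw [Real.exp_eq_exp_ℝ]
  exact h.symm

end alg

theorem IsGen.exp_nonneg {L : Matrix Ω Ω ℝ} (h : IsGen L) {t : ℝ} (ht : 0 ≤ t) (x y : Ω) :
    0 ≤ NormedSpace.exp (t • L) x y := by
  set r : ℝ := ∑ x, |L x x| with hr
  have hrx : ∀ x, 0 ≤ L x x + r := by
    intro x
    have : |L x x| ≤ r := Finset.single_le_sum (f := fun x => |L x x|)
      (fun _ _ => abs_nonneg _) (Finset.mem_univ x)
    have := neg_abs_le (L x x)
    linarith
  have e : t • L = (-(t * r)) • (1 : Matrix Ω Ω ℝ) + t • (L + r • 1) := by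
    rw [smul_add, smul_smul, neg_smul]; abel
  rw [e, Matrix.exp_add_of_commute _ _ ((Commute.one_left _).smul_left _), exp_smul_one,
    smul_mul_assoc, one_mul, Matrix.smul_apply, smul_eq_mul]
  refine mul_nonneg (Real.exp_pos _).le (exp_nonneg_of_nonneg _ (fun a b => ?_) x y)
  rw [Matrix.smul_apply, Matrix.add_apply, Matrix.smul_apply, smul_eq_mul, smul_eq_mul]
  refine mul_nonneg ht ?_
  rw [Matrix.one_apply]
  split_ifs with hab
  · subst hab; rw [mul_one]; exact hrx a
  · rw [mul_zero, add_zero]; exact h.off a b hab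

theorem IsGen.exp_row {L : Matrix Ω Ω ℝ} (h : IsGen L) (t : ℝ) (x : Ω) :
    ∑ y, NormedSpace.exp (t • L) x y = 1 := by
  have hd : ∀ t, HasDerivAt (fun u : ℝ => ∑ y, NormedSpace.exp (u • L) x y) 0 t := by
    intro t
    have h1 : HasDerivAt (fun u : ℝ => ∑ y, NormedSpace.exp (u • L) x y)
        (∑ y, ∑ z, NormedSpace.exp (t • L) x z * L z y) t :=
      HasDerivAt.fun_sum fun y _ => hasDerivAt_exp L t x y
    refine h1.congr_deriv ?_
    rw [Finset.sum_comm]
    refine Finset.sum_eq_zero fun z _ => ?_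
    rw [← Finset.mul_sum, h.row z, mul_zero]
  have hc := is_const_of_deriv_eq_zero (fun t => (hd t).differentiableAt) (fun t => (hd t).deriv) t 0
  rw [hc, exp_zero_smul]
  simp [Matrix.one_apply]

/-- uniqueness of the solution of the forward equation -/
theorem exp_unique (A : Matrix Ω Ω ℝ) (M : ℝ → Matrix Ω Ω ℝ) (h0 : M 0 = 1)
    (hM : ∀ t x y, HasDerivAt (fun u => M u x y) (∑ z, M t x z * A z y) t) (t : ℝ) :
    M t = NormedSpace.exp (t • A) := by
  have key : ∀ x y, ∑ z, M t x z * NormedSpace.exp ((-t) • A) z y = (1 : Matrix Ω Ω ℝ) x y := by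
    intro x y
    have hd : ∀ t, HasDerivAt (fun u : ℝ => ∑ z, M u x z * NormedSpace.exp ((-u) • A) z y) 0 t := by
      intro t
      have h1 : ∀ z, HasDerivAt (fun u : ℝ => NormedSpace.exp ((-u) • A) z y)
          ((∑ w, A z w * NormedSpace.exp ((-t) • A) w y) * (-1)) t := by
        intro z
        have := (hasDerivAt_exp' A (-t) z y).comp t (hasDerivAt_neg t)
        exact this
      have h2 : HasDerivAt (fun u : ℝ => ∑ z, M u x z * NormedSpace.exp ((-u) • A) z y)
          (∑ z, ((∑ w, M t x w * A w z) * NormedSpace.exp ((-t) • A) z y +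
            M t x z * ((∑ w, A z w * NormedSpace.exp ((-t) • A) w y) * (-1)))) t :=
        HasDerivAt.fun_sum fun z _ => (hM t x z).mul (h1 z)
      refine h2.congr_deriv ?_
      rw [Finset.sum_add_distrib]
      have e1 : ∑ z, (∑ w, M t x w * A w z) * NormedSpace.exp ((-t) • A) z y =
          ∑ w, ∑ z, M t x w * A w z * NormedSpace.exp ((-t) • A) z y := by
        rw [Finset.sum_comm]
        refine Finset.sum_congr rfl fun z _ => ?_
        rw [Finset.sum_mul]
      have e2 : ∑ z, M t x z * ((∑ w, A z w * NormedSpace.exp ((-t) • A) w y) * (-1)) =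
          - ∑ w, ∑ z, M t x w * A w z * NormedSpace.exp ((-t) • A) z y := by
        rw [← Finset.sum_neg_distrib]
        refine Finset.sum_congr rfl fun z _ => ?_
        rw [mul_neg_one, mul_neg, Finset.mul_sum]
        congr 1
        refine Finset.sum_congr rfl fun w _ => ?_
        ring
      rw [e1, e2]; ring
    have hc := is_const_of_deriv_eq_zero (fun t => (hd t).differentiableAt)
      (fun t => (hd t).deriv) t 0
    rw [hc, neg_zero, exp_zero_smul, h0]
    rw [← Matrix.mul_apply, one_mul]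
  have h1 : M t * NormedSpace.exp ((-t) • A) = 1 := by
    ext x y
    rw [Matrix.mul_apply]; exact key x y
  have h2 : NormedSpace.exp ((-t) • A) * NormedSpace.exp (t • A) = 1 := by
    rw [← exp_add, neg_add_cancel, exp_zero_smul]
  calc M t = M t * (NormedSpace.exp ((-t) • A) * NormedSpace.exp (t • A)) := by rw [h2, mul_one]
    _ = NormedSpace.exp (t • A) := by rw [← mul_assoc, h1, one_mul]

theorem abs_apply_le {L : Matrix Ω Ω ℝ} (h : IsGen L) {t : ℝ} (ht : 0 ≤ t) (v : Ω → ℝ)
    (hv : ∀ y, |v y| ≤ 1) (x : Ω) : |∑ y, NormedSpace.exp (t • L) x y * v y| ≤ 1 := by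
  calc |∑ y, NormedSpace.exp (t • L) x y * v y|
      ≤ ∑ y, |NormedSpace.exp (t • L) x y * v y| := Finset.abs_sum_le_sum_abs _ _
    _ ≤ ∑ y, NormedSpace.exp (t • L) x y := by
        refine Finset.sum_le_sum fun y _ => ?_
        rw [abs_mul, abs_of_nonneg (h.exp_nonneg ht x y)]
        exact mul_le_of_le_one_right (h.exp_nonneg ht x y) (hv y)
    _ = 1 := h.exp_row t x

/-- comparison of two semigroups -/
theorem perturb {L L0 : Matrix Ω Ω ℝ} (h : IsGen L) (h0 : IsGen L0) {η : ℝ}
    (hη : ∀ x, ∑ y, |L0 x y - L x y| ≤ η) {t : ℝ} (ht : 0 ≤ t) (v : Ω → ℝ)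
    (hv : ∀ y, |v y| ≤ 1) (x : Ω) :
    |∑ y, NormedSpace.exp (t • L0) x y * v y - ∑ y, NormedSpace.exp (t • L) x y * v y| ≤ η * t := by
  set g : ℝ → ℝ := fun s => ∑ z, NormedSpace.exp (s • L0) x z *
    ∑ y, NormedSpace.exp ((t - s) • L) z y * v y with hg
  have hd : ∀ s, HasDerivAt g (∑ z, NormedSpace.exp (s • L0) x z *
      ∑ w, (L0 z w - L z w) * ∑ y, NormedSpace.exp ((t - s) • L) w y * v y) s := by
    intro s
    have h1 : ∀ z, HasDerivAt (fun u : ℝ => ∑ y, NormedSpace.exp ((t - u) • L) z y * v y)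
        (∑ y, ((∑ w, L z w * NormedSpace.exp ((t - s) • L) w y) * (-1)) * v y) s := by
      intro z
      refine HasDerivAt.fun_sum fun y _ => ?_
      have hs : HasDerivAt (fun u : ℝ => t - u) (-1) s := by
        simpa using (hasDerivAt_id s).const_sub t
      exact ((hasDerivAt_exp' L (t - s) z y).comp s hs).mul_const (v y)
    have h2 : HasDerivAt g (∑ z, ((∑ w, NormedSpace.exp (s • L0) x w * L0 w z) *
        (∑ y, NormedSpace.exp ((t - s) • L) z y * v y) + NormedSpace.exp (s • L0) x z *
        (∑ y, ((∑ w, L z w * NormedSpace.exp ((t - s) • L) w y) * (-1)) * v y))) s :=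
      HasDerivAt.fun_sum fun z _ => (hasDerivAt_exp L0 s x z).mul (h1 z)
    refine h2.congr_deriv ?_
    rw [Finset.sum_add_distrib]
    have e1 : ∑ z, (∑ w, NormedSpace.exp (s • L0) x w * L0 w z) *
        (∑ y, NormedSpace.exp ((t - s) • L) z y * v y) =
        ∑ z, NormedSpace.exp (s • L0) x z * ∑ w, L0 z w *
          ∑ y, NormedSpace.exp ((t - s) • L) w y * v y := by
      simp_rw [Finset.sum_mul]
      rw [Finset.sum_comm]
      refine Finset.sum_congr rfl fun z _ => ?_
      rw [Finset.mul_sum]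
      refine Finset.sum_congr rfl fun w _ => ?_
      ring
    have e2 : ∀ z, ∑ y, ((∑ w, L z w * NormedSpace.exp ((t - s) • L) w y) * (-1)) * v y =
        - ∑ w, L z w * ∑ y, NormedSpace.exp ((t - s) • L) w y * v y := by
      intro z
      simp_rw [Finset.sum_mul, Finset.mul_sum]
      rw [Finset.sum_comm, ← Finset.sum_neg_distrib]
      refine Finset.sum_congr rfl fun w _ => ?_
      rw [← Finset.sum_neg_distrib]
      refine Finset.sum_congr rfl fun y _ => ?_
      ring
    rw [e1, ← Finset.sum_add_distrib]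
    refine Finset.sum_congr rfl fun z _ => ?_
    rw [e2 z, mul_neg, ← sub_eq_add_neg, ← mul_sub, ← Finset.sum_sub_distrib]
    congr 1
    refine Finset.sum_congr rfl fun w _ => ?_
    ring
  have hb : ∀ s ∈ Set.Icc (0 : ℝ) t, ‖∑ z, NormedSpace.exp (s • L0) x z *
      ∑ w, (L0 z w - L z w) * ∑ y, NormedSpace.exp ((t - s) • L) w y * v y‖ ≤ η := by
    intro s hs
    rw [Real.norm_eq_abs]
    calc |∑ z, NormedSpace.exp (s • L0) x z *
          ∑ w, (L0 z w - L z w) * ∑ y, NormedSpace.exp ((t - s) • L) w y * v y|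
        ≤ ∑ z, |NormedSpace.exp (s • L0) x z *
          ∑ w, (L0 z w - L z w) * ∑ y, NormedSpace.exp ((t - s) • L) w y * v y| :=
          Finset.abs_sum_le_sum_abs _ _
      _ ≤ ∑ z, NormedSpace.exp (s • L0) x z * η := by
          refine Finset.sum_le_sum fun z _ => ?_
          rw [abs_mul, abs_of_nonneg (h0.exp_nonneg hs.1 x z)]
          refine mul_le_mul_of_nonneg_left ?_ (h0.exp_nonneg hs.1 x z)
          calc |∑ w, (L0 z w - L z w) * ∑ y, NormedSpace.exp ((t - s) • L) w y * v y|
              ≤ ∑ w, |(L0 z w - L z w) * ∑ y, NormedSpace.exp ((t - s) • L) w y * v y| :=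
                Finset.abs_sum_le_sum_abs _ _
            _ ≤ ∑ w, |L0 z w - L z w| := by
                refine Finset.sum_le_sum fun w _ => ?_
                rw [abs_mul]
                exact mul_le_of_le_one_right (abs_nonneg _)
                  (abs_apply_le h (by linarith [hs.2]) v hv w)
            _ ≤ η := hη z
      _ = η := by rw [← Finset.sum_mul, h0.exp_row, one_mul]
  have hm := Convex.norm_image_sub_le_of_norm_hasDerivWithin_le (f := g) (C := η)
    (fun s hs => (hd s).hasDerivWithinAt) hb (convex_Icc 0 t)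
    (Set.left_mem_Icc.2 ht) (Set.right_mem_Icc.2 ht)
  have g0 : g 0 = ∑ y, NormedSpace.exp (t • L) x y * v y := by
    simp only [hg, exp_zero_smul, sub_zero]
    rw [Finset.sum_eq_single x]
    · rw [Matrix.one_apply_eq, one_mul]
    · intro z _ hz; rw [Matrix.one_apply_ne (Ne.symm hz), zero_mul]
    · intro h; exact absurd (Finset.mem_univ x) h
  have gt : g t = ∑ y, NormedSpace.exp (t • L0) x y * v y := by
    simp only [hg, exp_zero_smul, sub_self]
    refine Finset.sum_congr rfl fun z _ => ?_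
    congr 1
    rw [Finset.sum_eq_single z]
    · rw [Matrix.one_apply_eq, one_mul]
    · intro y _ hy; rw [Matrix.one_apply_ne (Ne.symm hy), zero_mul]
    · intro h; exact absurd (Finset.mem_univ z) h
  rw [g0, gt, Real.norm_eq_abs, Real.norm_eq_abs, sub_zero, abs_of_nonneg ht] at hm
  exact hm

/-- the generator with additional jumps to equilibrium at rate `c` -/
def jump (L : Matrix Ω Ω ℝ) (p : Ω → ℝ) (c : ℝ) : Matrix Ω Ω ℝ :=
  Matrix.of fun x y => L x y + c * (p y - if x = y then 1 else 0)

/-- adding jumps to equilibrium at rate `c` -/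
theorem exp_jump {L : Matrix Ω Ω ℝ} (h : IsGen L) (p : Ω → ℝ) (hp1 : ∑ x, p x = 1)
    (hp : ∀ y, ∑ x, p x * L x y = 0) (c t : ℝ) (x y : Ω) :
    NormedSpace.exp (t • jump L p c) x y =
      Real.exp (-c * t) * NormedSpace.exp (t • L) x y + (1 - Real.exp (-c * t)) * p y := by
  set M : ℝ → Matrix Ω Ω ℝ := fun t => Matrix.of fun x y =>
    Real.exp (-c * t) * NormedSpace.exp (t • L) x y + (1 - Real.exp (-c * t)) * p y with hM
  have hMa : ∀ t x y, M t x y = Real.exp (-c * t) * NormedSpace.exp (t • L) x y +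
    (1 - Real.exp (-c * t)) * p y := fun t x y => rfl
  have h1 : M t = NormedSpace.exp (t • jump L p c) := by
    apply exp_unique
    · ext x y
      rw [hMa, exp_zero_smul]; simp
    · intro t x y
      have e : HasDerivAt (fun u : ℝ => Real.exp (-c * u)) (Real.exp (-c * t) * (-c)) t := by
        have : HasDerivAt (fun u : ℝ => -c * u) (-c * 1) t := (hasDerivAt_id t).const_mul (-c)
        rw [mul_one] at this
        exact this.exp
      have h2 : HasDerivAt (fun u => M u x y)
          ((Real.exp (-c * t) * (-c)) * NormedSpace.exp (t • L) x y +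
            Real.exp (-c * t) * (∑ z, NormedSpace.exp (t • L) x z * L z y) +
            (0 - Real.exp (-c * t) * (-c)) * p y) t := by
        have := (e.mul (hasDerivAt_exp L t x y)).add
          (((hasDerivAt_const t (1 : ℝ)).sub e).mul_const (p y))
        exact this
      refine h2.congr_deriv ?_
      have hrow : ∑ z, M t x z = 1 := by
        simp only [hMa]
        rw [Finset.sum_add_distrib, ← Finset.mul_sum, ← Finset.mul_sum, h.exp_row, hp1]; ring
      have e2 : ∑ z, M t x z * jump L p c z y =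
          ∑ z, M t x z * L z y + c * p y * ∑ z, M t x z - c * M t x y := by
        have : ∀ z, M t x z * jump L p c z y =
            M t x z * L z y + c * p y * M t x z - c * (if z = y then M t x z else 0) := by
          intro z
          rw [jump, Matrix.of_apply]
          split_ifs <;> ring
        rw [Finset.sum_congr rfl fun z _ => this z, Finset.sum_sub_distrib, Finset.sum_add_distrib,
          ← Finset.mul_sum, ← Finset.mul_sum, Finset.sum_ite_eq', if_pos (Finset.mem_univ y)]
      have e3 : ∑ z, M t x z * L z y =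
          Real.exp (-c * t) * ∑ z, NormedSpace.exp (t • L) x z * L z y := by
        have : ∀ z, M t x z * L z y = Real.exp (-c * t) * (NormedSpace.exp (t • L) x z * L z y) +
            (1 - Real.exp (-c * t)) * (p z * L z y) := by
          intro z; rw [hMa]; ring
        rw [Finset.sum_congr rfl fun z _ => this z, Finset.sum_add_distrib, ← Finset.mul_sum,
          ← Finset.mul_sum, hp y]; ring
      rw [e2, e3, hrow, hMa]; ring
  rw [← h1]
  exact hMa t x y

end Pool.Agent.R973.Cut
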