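import Pool.Agent.R973.Cut.Chn

/-!
# The counterexamples for separation and for the relative entropy
-/

set_option autoImplicit false

open Finset Filter Topology

namespace Pool.Agent.R973.Cut

/-! ### Asymptotic facts -/

theorem tendsto_shift : Tendsto (fun n : ℕ => ((n + 2 : ℕ) : ℝ)) atTop atTop :=
  tendsto_natCast_atTop_atTop.comp (tendsto_add_atTop_nat 2)

theorem tendsto_be (p : ℕ) :
    Tendsto (fun n : ℕ => ((n + 2 : ℕ) : ℝ) ^ p * be (n + 2)) atTop (𝓝 0) := by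
  have h := (Real.tendsto_pow_mul_exp_neg_atTop_nhds_zero p).comp tendsto_shift
  exact h

theorem ev_be (p : ℕ) {δ : ℝ} (hδ : 0 < δ) :
    ∀ᶠ n : ℕ in atTop, ((n + 2 : ℕ) : ℝ) ^ p * be (n + 2) ≤ δ :=
  (tendsto_be p).eventually_le_const hδ

/-! ### Separation -/

theorem sep_ge' (n : ℕ) {σ δ s : ℝ} (hσ : 0 < σ) (hs0 : 0 ≤ s) (hs : s ≤ σ * (n + 2 : ℕ))
    (hσ1 : σ ≤ 1) (hδ : 8 * (((n + 2 : ℕ) : ℝ) ^ 1 * be (n + 2)) ≤ δ) (h0 : 0 ≤ 1 - σ / 2 - δ) :
    Real.exp (-σ) * (1 - σ / 2 - δ) ≤ (Ch n).separation s := by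
  refine le_trans ?_ (sep_ge n hs0)
  set k := n + 2 with hk
  have hk0 : (0 : ℝ) < k := by positivity
  have hb := be_pos k
  have h1 : Real.exp (-σ) ≤ Real.exp (-(1 / (k : ℝ)) * s) := by
    apply Real.exp_le_exp.2
    have : 1 / (k : ℝ) * s ≤ σ := by
      rw [one_div, inv_mul_le_iff₀ hk0]; linarith
    linarith
  have h2 : s / (4 * k + 1) ≤ σ / 4 := by
    rw [div_le_div_iff₀ (by positivity) (by norm_num)]
    nlinarith
  have h3 : 4 * be k * s ≤ 4 * ((k : ℝ) ^ 1 * be k) := by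
    have : s ≤ k := hs.trans (by nlinarith)
    rw [pow_one]
    nlinarith
  refine mul_le_mul h1 ?_ h0 (Real.exp_pos _).le
  linarith

theorem height_sep : height (fun n => (Ch n).separation) = 1 := by
  unfold height
  simp only [sep_zero]
  exact limsup_const 1

theorem sep_part (ε : ℝ) (h1 : (ε : EReal) < height (fun n => (Ch n).separation)) (h0 : 0 < ε) :
    ProductCondition (fun n => (Ch n).gap) (mixingTime (fun n => (Ch n).separation) ε) ∧
    ¬ Cutoff (fun n => (Ch n).separation) (mixingTime (fun n => (Ch n).separation) ε) ∧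
    ¬ WindowCutoff (fun n => (Ch n).separation) (mixingTime (fun n => (Ch n).separation) ε)
      (fun n => ((Ch n).gap)⁻¹) := by
  have hε : ε < 1 := by rw [height_sep] at h1; exact_mod_cast h1
  -- the constant σ
  obtain ⟨σ, hσ0, hσ1, hσ⟩ : ∃ σ : ℝ, 0 < σ ∧ σ ≤ 1 ∧ ε < Real.exp (-σ) * (1 - σ / 2 - σ / 2) := by
    have hc : Tendsto (fun σ : ℝ => Real.exp (-σ) * (1 - σ / 2 - σ / 2)) (𝓝[>] 0)
        (𝓝 (Real.exp (-0) * (1 - 0 / 2 - 0 / 2))) := by
      apply Tendsto.mono_left _ nhdsWithin_le_nhds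
      apply Continuous.tendsto
      fun_prop
    have hc2 : ε < Real.exp (-0) * (1 - 0 / 2 - 0 / 2) := by simpa using hε
    have h3 := hc.eventually_const_lt hc2
    have h4 : ∀ᶠ σ : ℝ in 𝓝[>] 0, σ ≤ 1 := by
      apply Filter.Eventually.filter_mono nhdsWithin_le_nhds
      exact eventually_le_nhds zero_lt_one
    obtain ⟨σ, h5, h6, h7⟩ := (h3.and (h4.and self_mem_nhdsWithin)).exists
    exact ⟨σ, h7, h6, h5⟩
  refine counterexample (T1 := fun n => ((n + 2 : ℕ) : ℝ) / 2) (T2 := fun n => ((n + 2 : ℕ) : ℝ))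
    (a := Real.exp (-1) * (1 / 4)) (b := Real.exp (-(1 / 2))) (c := 1 / 8)
    (T := fun n => σ * ((n + 2 : ℕ) : ℝ)) (by positivity) ?_ ?_ ?_ ?_ (by norm_num)
    gap_ge ?_ ?_ ?_
  · rw [height_sep]
    have : Real.exp (-(1 / 2)) < 1 := by rw [Real.exp_lt_one_iff]; norm_num
    exact_mod_cast this
  · intro n
    have : (0 : ℝ) ≤ ((n + 2 : ℕ) : ℝ) := Nat.cast_nonneg _
    show 6 * (((n + 2 : ℕ) : ℝ) / 2) ≤ 5 * ((n + 2 : ℕ) : ℝ)
    linarith
  · filter_upwards [ev_be 1 (show (0 : ℝ) < 1 / 32 by norm_num)] with n hn s hs0 hs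
    have := sep_ge' n (σ := 1) (δ := 1 / 4) one_pos hs0 (by rw [one_mul]; exact hs) (le_refl 1)
      (by linarith) (by norm_num)
    refine le_trans (le_of_eq ?_) this
    norm_num
  · refine Eventually.of_forall fun n s hs => ?_
    have hk0 : (0 : ℝ) < ((n + 2 : ℕ) : ℝ) := by positivity
    have hs' : ((n + 2 : ℕ) : ℝ) / 2 ≤ s := hs
    refine (sep_le n (by linarith)).trans ?_
    apply Real.exp_le_exp.2
    have : 1 / 2 ≤ 1 / ((n + 2 : ℕ) : ℝ) * s := by
      rw [one_div ((n + 2 : ℕ) : ℝ), le_inv_mul_iff₀ hk0]; linarith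
    linarith
  · intro n
    have hk0 : (0 : ℝ) < ((n + 2 : ℕ) : ℝ) := by positivity
    have ht : Tendsto (fun s : ℝ => Real.exp (-(1 / ((n + 2 : ℕ) : ℝ)) * s)) atTop (𝓝 0) := by
      apply Real.tendsto_exp_atBot.comp
      apply Tendsto.const_mul_atTop_of_neg _ tendsto_id
      have : 0 < 1 / ((n + 2 : ℕ) : ℝ) := by positivity
      linarith
    obtain ⟨s, hs1, hs2⟩ := ((ht.eventually_le_const h0).and (eventually_ge_atTop 0)).exists
    exact ⟨s, hs2, (sep_le n hs2).trans hs1⟩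
  · exact tendsto_shift.const_mul_atTop hσ0
  · filter_upwards [ev_be 1 (show (0 : ℝ) < σ / 16 by positivity)] with n hn s hs0 hs
    exact hσ.trans_le (sep_ge' n (δ := σ / 2) hσ0 hs0 hs.le hσ1 (by linarith) (by linarith))

/-! ### Relative entropy -/

/-- a lower bound for the probability of the first states -/
theorem early (n : ℕ) {s : ℝ} (hs0 : 0 ≤ s) (hs : s ≤ (n + 2 : ℕ))
    (hδ : ((n + 2 : ℕ) : ℝ) ^ 1 * be (n + 2) ≤ 1 / 16) :
    Real.exp (-1) * (1 / 2) ≤ ∑ j ∈ fst (n + 2) (7 * (n + 2) + 1),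
      NormedSpace.exp (s • Lj (n + 2)) (ini (n + 2)) j := by
  set k := n + 2 with hk
  have hk1 : 1 ≤ k := by omega
  have hk0 : (0 : ℝ) < k := by positivity
  have hb := be_pos k
  have h1 := heat_event k hk1 hs0 (fst k (7 * k + 1)) (ini k)
  have h2 := P_fast k hk1 hs0 (7 * k + 1) (by omega) (by omega)
  refine le_trans ?_ h1
  have h3 : Real.exp (-1) ≤ Real.exp (-(1 / (k : ℝ)) * s) := by
    apply Real.exp_le_exp.2
    have : 1 / (k : ℝ) * s ≤ 1 := by
      rw [one_div, inv_mul_le_iff₀ hk0]; linarith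
    linarith
  have h4 : s / (4 * k + 1) ≤ 1 / 4 := by
    rw [div_le_div_iff₀ (by positivity) (by norm_num)]
    nlinarith
  have h5 : 4 * be k * s ≤ 4 * ((k : ℝ) ^ 1 * be k) := by
    rw [pow_one]; nlinarith
  exact mul_le_mul h3 (by linarith) (by norm_num) (Real.exp_pos _).le

theorem entropy_large (M : ℝ) :
    ∀ᶠ n : ℕ in atTop, ∀ s, 0 ≤ s → s < ((n + 2 : ℕ) : ℝ) → M < (Ch n).entropy s := by
  set p : ℝ := Real.exp (-1) * (1 / 2) with hp
  have hp0 : 0 < p := by positivity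
  have ht : Tendsto (fun n : ℕ => ((n + 2 : ℕ) : ℝ) ^ 2) atTop atTop :=
    (tendsto_pow_atTop (two_ne_zero)).comp tendsto_shift
  have e1 : ∀ᶠ n : ℕ in atTop, M < p * ((Real.log (p / 8) + ((n + 2 : ℕ) : ℝ) ^ 2) - 1) := by
    apply Tendsto.eventually_gt_atTop
    apply Tendsto.const_mul_atTop hp0
    exact tendsto_atTop_add_const_right _ _ (tendsto_atTop_add_const_left _ _ ht)
  have e2 : ∀ᶠ n : ℕ in atTop, 8 * Real.exp (-((n + 2 : ℕ) : ℝ) ^ 2) ≤ p := by
    have h1 : Tendsto (fun n : ℕ => 8 * Real.exp (-((n + 2 : ℕ) : ℝ) ^ 2)) atTop (𝓝 (8 * 0)) :=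
      (Real.tendsto_exp_neg_atTop_nhds_zero.comp ht).const_mul 8
    rw [mul_zero] at h1
    exact h1.eventually_le_const hp0
  filter_upwards [e1, e2, ev_be 1 (show (0 : ℝ) < 1 / 16 by norm_num)] with n h1 h2 h3 s hs0 hs
  have h4 := entropy_ge n hs0 hp0 h2 (early n hs0 hs.le h3)
  refine h1.trans_le (le_trans (le_of_eq ?_) h4)
  congr 2
  rw [← div_div, Real.log_div (by positivity) (Real.exp_pos _).ne', Real.log_exp]
  ring

theorem height_entropy : height (fun n => (Ch n).entropy) = ⊤ := by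
  unfold height
  apply Tendsto.limsup_eq
  rw [EReal.tendsto_nhds_top_iff_real]
  intro x
  filter_upwards [entropy_large x] with n hn
  have := hn 0 (le_refl 0) (by positivity)
  exact_mod_cast this

theorem plateau_lower : ∀ᶠ n : ℕ in atTop, ∀ s, 0 ≤ s → s ≤ 6 * ((n + 2 : ℕ) : ℝ) →
    Real.exp (-6) / 16 ≤ (Ch n).entropy s := by
  have ht : Tendsto (fun n : ℕ => ((n + 2 : ℕ) : ℝ) ^ 2 / 2) atTop atTop :=
    ((tendsto_pow_atTop (two_ne_zero)).comp tendsto_shift).atTop_div_const (by norm_num)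
  have e1 : ∀ᶠ n : ℕ in atTop, (((n + 2 : ℕ) : ℝ) ^ 2 / 2) ^ 1 *
      Real.exp (-(((n + 2 : ℕ) : ℝ) ^ 2 / 2)) ≤ Real.exp (-7) / 128 :=
    ((Real.tendsto_pow_mul_exp_neg_atTop_nhds_zero 1).comp ht).eventually_le_const (by positivity)
  filter_upwards [e1, ev_be 3 (show (0 : ℝ) < 1 / 1344 by norm_num)] with n h1 h2 s hs0 hs
  set k := n + 2 with hk
  have hk1 : 1 ≤ k := by omega
  have hk0 : (0 : ℝ) < k := by positivity
  have hb := be_pos k
  set p : ℝ := Real.exp (-6) * (q k / 8) with hp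
  have hq : q k = 1 / (k : ℝ) ^ 2 := rfl
  have hq0 : 0 < q k := by rw [hq]; positivity
  have hp0 : 0 < p := by positivity
  -- p / a ≥ exp (k ^ 2 / 2 + 1)
  have h3 : Real.exp ((k : ℝ) ^ 2 / 2 + 1) * (8 * Real.exp (-(k : ℝ) ^ 2)) ≤ p := by
    have e3 : Real.exp ((k : ℝ) ^ 2 / 2 + 1) * (8 * Real.exp (-(k : ℝ) ^ 2)) =
        8 * Real.exp 1 * Real.exp (-((k : ℝ) ^ 2 / 2)) := by
      have : Real.exp ((k : ℝ) ^ 2 / 2 + 1) * Real.exp (-(k : ℝ) ^ 2) =
          Real.exp 1 * Real.exp (-((k : ℝ) ^ 2 / 2)) := by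
        rw [← Real.exp_add, ← Real.exp_add]; congr 1; ring
      linear_combination 8 * this
    have e4 : Real.exp (-6) = Real.exp 1 * Real.exp (-7) := by
      rw [← Real.exp_add]; norm_num
    rw [e3, hp, hq, e4]
    rw [pow_one] at h1
    have h5 : Real.exp (-((k : ℝ) ^ 2 / 2)) ≤ Real.exp (-7) / (64 * (k : ℝ) ^ 2) := by
      rw [le_div_iff₀ (by positivity)]
      linarith
    calc 8 * Real.exp 1 * Real.exp (-((k : ℝ) ^ 2 / 2))
        ≤ 8 * Real.exp 1 * (Real.exp (-7) / (64 * (k : ℝ) ^ 2)) := by gcongr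
      _ = Real.exp 1 * Real.exp (-7) * (1 / (k : ℝ) ^ 2 / 8) := by field_simp; norm_num
  have h4 : 8 * Real.exp (-(k : ℝ) ^ 2) ≤ p := by
    refine le_trans ?_ h3
    have : 1 ≤ Real.exp ((k : ℝ) ^ 2 / 2 + 1) := Real.one_le_exp (by positivity)
    have h8 : 0 ≤ 8 * Real.exp (-(k : ℝ) ^ 2) := by positivity
    nlinarith
  have h5 : p ≤ ∑ j ∈ fst k (7 * k + 1), NormedSpace.exp (s • Lj k) (ini k) j := by
    refine le_trans ?_ (heat_event k hk1 hs0 (fst k (7 * k + 1)) (ini k))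
    have h6 := P_slow k hk1 hs0 hs
    have h7 : Real.exp (-6) ≤ Real.exp (-(1 / (k : ℝ)) * s) := by
      apply Real.exp_le_exp.2
      have : 1 / (k : ℝ) * s ≤ 6 := by
        rw [one_div, inv_mul_le_iff₀ hk0]; linarith
      linarith
    have h8 : 24 * k * be k ≤ q k / 56 := by
      rw [hq, div_div, le_div_iff₀ (by positivity)]
      have : 24 * (k : ℝ) * be k * ((k : ℝ) ^ 2 * 56) = 1344 * ((k : ℝ) ^ 3 * be k) := by ring
      linarith
    exact mul_le_mul h7 (by linarith) (by positivity) (Real.exp_pos _).le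
  have h6 := entropy_ge n hs0 hp0 h4 h5
  refine le_trans ?_ h6
  have h7 : (k : ℝ) ^ 2 / 2 + 1 ≤ Real.log (p / (8 * Real.exp (-(k : ℝ) ^ 2))) := by
    rw [Real.le_log_iff_exp_le (by positivity), le_div_iff₀ (by positivity)]
    exact h3
  calc Real.exp (-6) / 16 = p * ((k : ℝ) ^ 2 / 2) := by rw [hp, hq]; field_simp; norm_num
    _ ≤ p * (Real.log (p / (8 * Real.exp (-(k : ℝ) ^ 2))) - 1) :=
        mul_le_mul_of_nonneg_left (by linarith) hp0.le

theorem plateau_upper : ∀ᶠ n : ℕ in atTop, ∀ s, 5 * ((n + 2 : ℕ) : ℝ) ≤ s →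
    (Ch n).entropy s ≤ 13 := by
  have e1 : ∀ᶠ n : ℕ in atTop, ((n + 2 : ℕ) : ℝ) ^ 2 * (9 / 10 : ℝ) ^ (n + 2) ≤ 1 / 10 :=
    ((tendsto_pow_const_mul_const_pow_of_lt_one 2 (r := (9 / 10 : ℝ)) (by norm_num)
      (by norm_num)).comp (tendsto_add_atTop_nat 2)).eventually_le_const (by norm_num)
  filter_upwards [e1, ev_be 3 (show (0 : ℝ) < 1 / 200 by norm_num)] with n h1 h2 s hs
  set k := n + 2 with hk
  have hk1 : 1 ≤ k := by omega
  have hk0 : (0 : ℝ) < k := by positivity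
  have hk1' : (1 : ℝ) ≤ k := by exact_mod_cast hk1
  have hs0 : 0 ≤ s := by linarith
  have hb := be_pos k
  have h3 := entropy_le n hs0 (fun x => P_upper k hk1 hs x)
  refine h3.trans ?_
  have hq : q k = 1 / (k : ℝ) ^ 2 := rfl
  have h4 : (k : ℝ) * (8 * k + 1) + 1 ≤ 10 * (k : ℝ) ^ 2 := by nlinarith
  have h5 : 0 ≤ (9 / 10 : ℝ) ^ k + q k + 20 * k * be k := by
    have := q_nonneg k
    positivity
  have h6 : ((9 / 10 : ℝ) ^ k + q k + 20 * k * be k) * ((k : ℝ) * (8 * k + 1) + 1) ≤ 12 := by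
    refine (mul_le_mul_of_nonneg_left h4 h5).trans ?_
    have e : ((9 / 10 : ℝ) ^ k + q k + 20 * k * be k) * (10 * (k : ℝ) ^ 2) =
        10 * ((k : ℝ) ^ 2 * (9 / 10 : ℝ) ^ k) + 10 + 200 * ((k : ℝ) ^ 3 * be k) := by
      rw [hq]; field_simp; ring
    rw [e]
    linarith
  have h7 : 0 ≤ ((9 / 10 : ℝ) ^ k + q k + 20 * k * be k) * ((k : ℝ) * (8 * k + 1) + 1) := by
    positivity
  have h8 := rate_le_one k hs0
  have h9 := Real.exp_pos (-(1 / (k : ℝ)) * s)
  nlinarith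

theorem entropy_part (ε : ℝ) (h0 : 0 < ε) :
    ProductCondition (fun n => (Ch n).gap) (mixingTime (fun n => (Ch n).entropy) ε) ∧
    ¬ Cutoff (fun n => (Ch n).entropy) (mixingTime (fun n => (Ch n).entropy) ε) ∧
    ¬ WindowCutoff (fun n => (Ch n).entropy) (mixingTime (fun n => (Ch n).entropy) ε)
      (fun n => ((Ch n).gap)⁻¹) := by
  refine counterexample (T1 := fun n => 5 * ((n + 2 : ℕ) : ℝ))
    (T2 := fun n => 6 * ((n + 2 : ℕ) : ℝ))
    (a := Real.exp (-6) / 16) (b := 13) (c := 1 / 8)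
    (T := fun n => ((n + 2 : ℕ) : ℝ)) (by positivity) ?_ ?_ plateau_lower plateau_upper
    (by norm_num) gap_ge ?_ tendsto_shift (entropy_large ε)
  · rw [height_entropy]; exact EReal.coe_lt_top _
  · intro n
    show 6 * (5 * ((n + 2 : ℕ) : ℝ)) ≤ 5 * (6 * ((n + 2 : ℕ) : ℝ))
    linarith
  · intro n
    set k := n + 2 with hk
    have hk1 : 1 ≤ k := by omega
    have hk0 : (0 : ℝ) < k := by positivity
    set c : ℝ := 1 + 1 * ((k : ℝ) * (8 * k + 1) + 1) with hc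
    have ht : Tendsto (fun s : ℝ => Real.exp (-(1 / (k : ℝ)) * s) * c) atTop (𝓝 (0 * c)) := by
      apply Tendsto.mul_const
      apply Real.tendsto_exp_atBot.comp
      apply Tendsto.const_mul_atTop_of_neg _ tendsto_id
      have : 0 < 1 / (k : ℝ) := by positivity
      linarith
    rw [zero_mul] at ht
    obtain ⟨s, hs1, hs2⟩ := ((ht.eventually_le_const h0).and (eventually_ge_atTop 0)).exists
    refine ⟨s, hs2, (entropy_le n hs2 (a := 1) fun x => ?_).trans hs1⟩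
    rw [← P_row k hk1 s x]
    exact Finset.sum_le_sum_of_subset_of_nonneg (Finset.erase_subset _ _)
      fun y _ _ => P_nonneg k hk1 hs2 x y

end Pool.Agent.R973.Cut
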