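import Pool.Agent.R973.Cut.Path

/-!
# The spectral gap
-/

set_option autoImplicit false

open Finset

namespace Pool.Agent.R973.Cut

/-- the next state on the fast way to the last state -/
def nx (k i : ℕ) : ℕ := if i = 4 * k then 8 * k + 1 else i + 1

theorem nx_lt (k i : ℕ) (hi : i < 8 * k + 1) : nx k i < 8 * k + 2 := by
  unfold nx; split_ifs <;> omega

theorem l0_nx (k i : ℕ) (hk : 2 ≤ k) (hi : i < 8 * k + 1) : 1 / 2 ≤ l0 k i (nx k i) := by
  have hq : q k ≤ 1 / 4 := by
    unfold q
    have : (2 : ℝ) ≤ k := by exact_mod_cast hk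
    exact one_div_le_one_div_of_le (by norm_num) (by nlinarith)
  unfold l0 nx
  rw [if_neg (show ¬ i = 8 * k + 1 by omega)]
  split_ifs <;> first | omega | linarith | (exfalso; simp_all; done)

/-- the weighted inequality along the way to the last state -/
theorem hardy (k : ℕ) (hk : 2 ≤ k) (F : ℕ → ℝ) :
    ∑ i ∈ range (8 * k + 2), lw k i * (F i - F (8 * k + 1)) ^ 2 ≤
      4 * ∑ i ∈ range (8 * k + 1), lw k i * (F i - F (nx k i)) ^ 2 := by
  set z := 8 * k + 1 with hz
  set S := ∑ i ∈ range (8 * k + 1), lw k i * (F i - F z) ^ 2 with hS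
  set E := ∑ i ∈ range (8 * k + 1), lw k i * (F i - F (nx k i)) ^ 2 with hE
  have h0 : ∑ i ∈ range (8 * k + 2), lw k i * (F i - F z) ^ 2 = S := by
    rw [Finset.sum_range_succ]
    have : F (8 * k + 1) - F z = 0 := sub_self _
    rw [this]; simp [hS]
  have hb := be_le k hk
  have hS0 : 0 ≤ S := Finset.sum_nonneg fun i _ => mul_nonneg (lw_pos k i).le (sq_nonneg _)
  have h1 : S ≤ 2 * E + 2 * ∑ i ∈ range (8 * k + 1), lw k i * (F (nx k i) - F z) ^ 2 := by
    rw [hS, hE, Finset.mul_sum, Finset.mul_sum, ← Finset.sum_add_distrib]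
    refine Finset.sum_le_sum fun i _ => ?_
    have := (lw_pos k i).le
    have h2 : (F i - F z) ^ 2 ≤ 2 * (F i - F (nx k i)) ^ 2 + 2 * (F (nx k i) - F z) ^ 2 := by
      nlinarith [sq_nonneg ((F i - F (nx k i)) - (F (nx k i) - F z))]
    have h3 := mul_le_mul_of_nonneg_left h2 this
    linarith
  have h2 : ∑ i ∈ range (8 * k + 1), lw k i * (F (nx k i) - F z) ^ 2 ≤ be k * S := by
    have h3 : ∀ i ∈ range (8 * k + 1), lw k i * (F (nx k i) - F z) ^ 2 ≤
        be k * (lw k (i + 1) * (F (i + 1) - F z) ^ 2) := by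
      intro i hi
      rw [mem_range] at hi
      unfold nx
      by_cases h : i = 4 * k
      · rw [if_pos h]
        have : F (8 * k + 1) - F z = 0 := sub_self _
        rw [this]
        have := mul_nonneg (be_pos k).le (mul_nonneg (lw_pos k (i + 1)).le
          (sq_nonneg (F (i + 1) - F z)))
        simpa using this
      · rw [if_neg h]
        have : lw k i = be k * lw k (i + 1) := by
          unfold lw; rw [wt_succ k (by omega)]; ring
        rw [this, mul_assoc]
    refine (Finset.sum_le_sum h3).trans ?_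
    rw [← Finset.mul_sum]
    refine mul_le_mul_of_nonneg_left ?_ (be_pos k).le
    have h4 : ∑ i ∈ range (8 * k + 1), lw k (i + 1) * (F (i + 1) - F z) ^ 2 +
        lw k 0 * (F 0 - F z) ^ 2 = S := by
      rw [← h0]
      exact (Finset.sum_range_succ' (fun i => lw k i * (F i - F z) ^ 2) (8 * k + 1)).symm
    have h5 := mul_nonneg (lw_pos k 0).le (sq_nonneg (F 0 - F z))
    linarith
  rw [h0]
  have h3 : be k * S ≤ 1 / 4 * S := mul_le_mul_of_nonneg_right hb hS0
  linarith

/-- the stationary distribution on the state space -/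
noncomputable def law (k : ℕ) (i : Fin (8 * k + 2)) : ℝ := lw k i

theorem law_sum (k : ℕ) : ∑ i, law k i = 1 := by
  unfold law
  rw [Fin.sum_univ_eq_sum_range (fun i => lw k i) (8 * k + 2)]
  exact lw_sum k

theorem law_pos (k : ℕ) (i : Fin (8 * k + 2)) : 0 < law k i := lw_pos k i

theorem law_stat (k : ℕ) (hk : 1 ≤ k) (j : Fin (8 * k + 2)) : ∑ i, law k i * Lc k i j = 0 := by
  have h : ∀ i, law k i * Lc k i j = law k j * Lc k j i := fun i => lw_rev k i j
  rw [Finset.sum_congr rfl fun i _ => h i, ← Finset.mul_sum, (Lc_gen k hk).row j, mul_zero]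

/-- the generator of the counterexample -/
noncomputable def Lj (k : ℕ) : Matrix (Fin (8 * k + 2)) (Fin (8 * k + 2)) ℝ :=
  jump (Lc k) (law k) (1 / k)

theorem variance_le (k : ℕ) (hk : 2 ≤ k) (f : Fin (8 * k + 2) → ℝ) :
    ∑ x, law k x * (f x - ∑ y, law k y * f y) ^ 2 ≤
      8 * ((1 / 2) * ∑ x, ∑ y, law k x * Lj k x y * (f x - f y) ^ 2) := by
  have hL : (8 * k + 1) < 8 * k + 2 := by omega
  set z : Fin (8 * k + 2) := ⟨8 * k + 1, hL⟩ with hz
  set m := ∑ y, law k y * f y with hm
  -- the variance is at most the second moment around `f z`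
  have h1 : ∑ x, law k x * (f x - m) ^ 2 ≤ ∑ x, law k x * (f x - f z) ^ 2 := by
    have e : ∑ x, law k x * (f x - f z) ^ 2 =
        ∑ x, law k x * (f x - m) ^ 2 + (m - f z) ^ 2 := by
      have e1 : ∀ x, law k x * (f x - f z) ^ 2 = law k x * (f x - m) ^ 2 +
          2 * (m - f z) * (law k x * f x - m * law k x) + (m - f z) ^ 2 * law k x := by
        intro x; ring
      rw [Finset.sum_congr rfl fun x _ => e1 x, Finset.sum_add_distrib, Finset.sum_add_distrib,
        ← Finset.mul_sum, ← Finset.mul_sum, Finset.sum_sub_distrib, ← Finset.mul_sum, law_sum,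
        ← hm]
      ring
    rw [e]
    have := sq_nonneg (m - f z)
    linarith
  set F : ℕ → ℝ := fun i => if h : i < 8 * k + 2 then f ⟨i, h⟩ else 0 with hF
  have hFf : ∀ x : Fin (8 * k + 2), F x = f x := fun x => by
    simp only [hF]; rw [dif_pos x.2]
  have hFz : F (8 * k + 1) = f z := hFf z
  have h2 : ∑ x, law k x * (f x - f z) ^ 2 =
      ∑ i ∈ range (8 * k + 2), lw k i * (F i - F (8 * k + 1)) ^ 2 := by
    rw [← Fin.sum_univ_eq_sum_range (fun i => lw k i * (F i - F (8 * k + 1)) ^ 2) (8 * k + 2)]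
    refine Finset.sum_congr rfl fun x _ => ?_
    rw [hFf, hFz]; rfl
  have h3 := hardy k hk F
  -- the Dirichlet form
  have h4 : ∀ x y : Fin (8 * k + 2), law k x * l0 k x y * (f x - f y) ^ 2 +
      law k y * l0 k y x * (f y - f x) ^ 2 ≤ law k x * Lj k x y * (f x - f y) ^ 2 := by
    intro x y
    by_cases hxy : x = y
    · rw [hxy]; simp
    · have hxy' : (x : ℕ) ≠ y := fun h => hxy (Fin.ext h)
      have e1 : Lj k x y = l0 k x y + wt k y * l0 k y x / wt k x + 1 / k * law k y := by
        show Lc k x y + 1 / k * (law k y - if x = y then 1 else 0) = _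
        rw [if_neg hxy]
        show lg k x y + _ = _
        unfold lg br
        rw [if_neg hxy', if_neg hxy']
        ring
      have e2 : law k x * (wt k y * l0 k y x / wt k x) = law k y * l0 k y x := by
        unfold law lw
        have h1 := (wt_pos k x).ne'
        have h3 : zs k ≠ 0 := by have := one_le_zs k; linarith
        field_simp
      have e3 : 0 ≤ law k x * (1 / k * law k y) * (f x - f y) ^ 2 := by
        have := law_pos k x
        have := law_pos k y
        positivity
      have e4 : law k x * Lj k x y * (f x - f y) ^ 2 =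
          law k x * l0 k x y * (f x - f y) ^ 2 + law k y * l0 k y x * (f y - f x) ^ 2 +
          law k x * (1 / k * law k y) * (f x - f y) ^ 2 := by
        rw [e1]
        have : (f y - f x) ^ 2 = (f x - f y) ^ 2 := by ring
        rw [this, ← e2]; ring
      rw [e4]; linarith
  have h5 : ∑ x : Fin (8 * k + 2), ∑ y : Fin (8 * k + 2), law k x * l0 k x y * (f x - f y) ^ 2 ≤
      (1 / 2) * ∑ x, ∑ y, law k x * Lj k x y * (f x - f y) ^ 2 := by
    have h6 : ∑ x : Fin (8 * k + 2), ∑ y : Fin (8 * k + 2), (law k x * l0 k x y * (f x - f y) ^ 2 +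
        law k y * l0 k y x * (f y - f x) ^ 2) ≤ ∑ x, ∑ y, law k x * Lj k x y * (f x - f y) ^ 2 :=
      Finset.sum_le_sum fun x _ => Finset.sum_le_sum fun y _ => h4 x y
    have h7 : ∑ x : Fin (8 * k + 2), ∑ y : Fin (8 * k + 2), law k y * l0 k y x * (f y - f x) ^ 2 =
        ∑ x : Fin (8 * k + 2), ∑ y : Fin (8 * k + 2), law k x * l0 k x y * (f x - f y) ^ 2 :=
      Finset.sum_comm
    rw [Finset.sum_congr rfl fun x _ => Finset.sum_add_distrib, Finset.sum_add_distrib, h7] at h6
    linarith
  have h6 : ∑ i ∈ range (8 * k + 1), lw k i * (F i - F (nx k i)) ^ 2 ≤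
      2 * ∑ x : Fin (8 * k + 2), ∑ y : Fin (8 * k + 2), law k x * l0 k x y * (f x - f y) ^ 2 := by
    have h7 : ∑ x : Fin (8 * k + 2), ∑ y : Fin (8 * k + 2), law k x * l0 k x y * (f x - f y) ^ 2 =
        ∑ i ∈ range (8 * k + 2), ∑ j ∈ range (8 * k + 2), lw k i * l0 k i j * (F i - F j) ^ 2 := by
      rw [← Fin.sum_univ_eq_sum_range
        (fun i => ∑ j ∈ range (8 * k + 2), lw k i * l0 k i j * (F i - F j) ^ 2) (8 * k + 2)]
      refine Finset.sum_congr rfl fun x _ => ?_
      rw [← Fin.sum_univ_eq_sum_range (fun j => lw k x * l0 k x j * (F x - F j) ^ 2) (8 * k + 2)]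
      refine Finset.sum_congr rfl fun y _ => ?_
      rw [hFf, hFf]; rfl
    have hnn : ∀ i j, 0 ≤ lw k i * l0 k i j * (F i - F j) ^ 2 := by
      intro i j
      by_cases h : i = j
      · rw [h]; simp
      · exact mul_nonneg (mul_nonneg (lw_pos k i).le (l0_off_nonneg k i j h)) (sq_nonneg _)
    rw [h7, Finset.mul_sum, Finset.sum_range_succ _ (8 * k + 1)]
    have h8 : 0 ≤ 2 * ∑ j ∈ range (8 * k + 2),
        lw k (8 * k + 1) * l0 k (8 * k + 1) j * (F (8 * k + 1) - F j) ^ 2 :=
      mul_nonneg (by norm_num) (Finset.sum_nonneg fun j _ => hnn _ j)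
    refine le_trans ?_ (le_add_of_nonneg_right h8)
    refine Finset.sum_le_sum fun i hi => ?_
    rw [mem_range] at hi
    have h9 := Finset.single_le_sum (f := fun j => lw k i * l0 k i j * (F i - F j) ^ 2)
      (fun j _ => hnn i j) (mem_range.2 (nx_lt k i hi))
    have h10 := l0_nx k i hk hi
    have h11 : lw k i * (F i - F (nx k i)) ^ 2 ≤
        2 * (lw k i * l0 k i (nx k i) * (F i - F (nx k i)) ^ 2) := by
      have : 0 ≤ lw k i * (F i - F (nx k i)) ^ 2 := mul_nonneg (lw_pos k i).le (sq_nonneg _)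
      nlinarith
    exact h11.trans (mul_le_mul_of_nonneg_left h9 (by norm_num))
  linarith

end Pool.Agent.R973.Cut
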