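import Pool.Agent.R973.Cut.Tail

/-!
# The reversible chain
-/

set_option autoImplicit false

open Finset

namespace Pool.Agent.R973.Cut

/-- the ratio of the weights of successive states -/
noncomputable def be (k : ℕ) : ℝ := Real.exp (-(k : ℝ))

theorem be_pos (k : ℕ) : 0 < be k := Real.exp_pos _

theorem be_le_one (k : ℕ) : be k ≤ 1 := by
  unfold be
  rw [Real.exp_le_one_iff]
  simp

theorem be_le (k : ℕ) (hk : 2 ≤ k) : be k ≤ 1 / 4 := by
  have h1 : Real.exp (-(k : ℝ)) ≤ Real.exp (-2) := by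
    apply Real.exp_le_exp.2
    have : (2 : ℝ) ≤ k := by exact_mod_cast hk
    linarith
  have h2 : Real.exp (-2) ≤ 1 / 4 := by
    have h3 : Real.exp (-2) = (Real.exp 1)⁻¹ ^ 2 := by
      rw [← Real.exp_neg, ← Real.exp_nat_mul]; norm_num
    have h4 := Real.exp_one_gt_d9
    have h5 : (Real.exp 1)⁻¹ ≤ 1 / 2 := by
      rw [one_div]
      exact inv_anti₀ (by norm_num) (by linarith)
    rw [h3]
    calc (Real.exp 1)⁻¹ ^ 2 ≤ (1 / 2) ^ 2 := pow_le_pow_left₀ (by positivity) h5 2
      _ = 1 / 4 := by norm_num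
  exact h1.trans h2

/-- the weights -/
noncomputable def wt (k i : ℕ) : ℝ := be k ^ (8 * k + 1 - i)

theorem wt_pos (k i : ℕ) : 0 < wt k i := pow_pos (be_pos k) _

theorem wt_lt (k : ℕ) {l i : ℕ} (h : l < i) (hi : i ≤ 8 * k + 1) : wt k l ≤ be k * wt k i := by
  unfold wt
  have e : 8 * k + 1 - l = (8 * k + 1 - i) + (i - l) := by omega
  rw [e, pow_add, mul_comm (be k)]
  refine mul_le_mul_of_nonneg_left ?_ (pow_pos (be_pos k) _).le
  calc be k ^ (i - l) ≤ be k ^ 1 := pow_le_pow_of_le_one (be_pos k).le (be_le_one k) (by omega)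
    _ = be k := pow_one _

theorem wt_succ (k : ℕ) {i : ℕ} (hi : i ≤ 8 * k) : wt k i = be k * wt k (i + 1) := by
  unfold wt
  have e : 8 * k + 1 - i = (8 * k + 1 - (i + 1)) + 1 := by omega
  rw [e, pow_succ, mul_comm]

/-- the backward rates -/
noncomputable def br (k i l : ℕ) : ℝ := if i = l then 0 else wt k l * l0 k l i / wt k i

theorem l0_off_nonneg (k i j : ℕ) (h : i ≠ j) : 0 ≤ l0 k i j := by
  unfold l0
  have h1 := q_nonneg k
  have h2 := q_le_one k
  rw [if_neg (show ¬ j = i from fun e => h e.symm)]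
  split_ifs <;> linarith

theorem br_nonneg (k i l : ℕ) : 0 ≤ br k i l := by
  unfold br
  split_ifs with h
  · exact le_refl _
  · exact div_nonneg (mul_nonneg (wt_pos k l).le (l0_off_nonneg k l i (fun e => h e.symm)))
      (wt_pos k i).le

theorem br_le (k i l : ℕ) (hi : i < 8 * k + 2) (hl : l < 8 * k + 2) :
    br k i l ≤ be k * ((if l = i - 1 then 1 else 0) + (if l = 4 * k then 1 else 0)) := by
  have hb := be_pos k
  have hR : 0 ≤ be k * ((if l = i - 1 then (1 : ℝ) else 0) + (if l = 4 * k then 1 else 0)) := by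
    split_ifs <;> positivity
  unfold br
  by_cases h : i = l
  · rw [if_pos h]; exact hR
  · rw [if_neg h]
    by_cases hli : l < i
    · have h1 : wt k l / wt k i ≤ be k := by
        rw [div_le_iff₀ (wt_pos k i)]; exact wt_lt k hli (by omega)
      have h2 : l0 k l i ≤ (if l = i - 1 then 1 else 0) + (if l = 4 * k then 1 else 0) := by
        have q1 := q_nonneg k
        have q2 := q_le_one k
        unfold l0
        split_ifs <;> first | omega | linarith
      have h3 : 0 ≤ l0 k l i := l0_off_nonneg k l i (by omega)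
      have h4 : wt k l * l0 k l i / wt k i = wt k l / wt k i * l0 k l i := by ring
      rw [h4]
      exact mul_le_mul h1 h2 h3 hb.le
    · have h0 : l0 k l i = 0 := by
        unfold l0
        by_cases h8 : l = 8 * k + 1
        · rw [if_pos h8]
        · rw [if_neg h8, if_neg (show ¬ i = l + 1 by omega), if_neg (show ¬ i = 8 * k + 1 by omega),
            if_neg h]
          ring
      rw [h0, mul_zero, zero_div]
      exact hR

theorem br_sum_le (k i : ℕ) (hi : i < 8 * k + 2) :
    ∑ l ∈ range (8 * k + 2), br k i l ≤ 2 * be k := by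
  calc ∑ l ∈ range (8 * k + 2), br k i l ≤ ∑ l ∈ range (8 * k + 2),
        be k * ((if l = i - 1 then 1 else 0) + (if l = 4 * k then 1 else 0)) :=
        Finset.sum_le_sum fun l hl => br_le k i l hi (mem_range.1 hl)
    _ = 2 * be k := by
        rw [← Finset.mul_sum, Finset.sum_add_distrib, Finset.sum_ite_eq', Finset.sum_ite_eq',
          if_pos (by rw [mem_range]; omega), if_pos (by rw [mem_range]; omega)]
        ring

/-- the rates of the reversible chain -/
noncomputable def lg (k i j : ℕ) : ℝ :=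
  l0 k i j + br k i j - if i = j then ∑ l ∈ range (8 * k + 2), br k i l else 0

/-- the generator of the reversible chain -/
noncomputable def Lc (k : ℕ) : Matrix (Fin (8 * k + 2)) (Fin (8 * k + 2)) ℝ :=
  Matrix.of fun i j => lg k i j

theorem Lc_gen (k : ℕ) (hk : 1 ≤ k) : IsGen (Lc k) where
  off := by
    intro i j hij
    have hij' : (i : ℕ) ≠ j := fun h => hij (Fin.ext h)
    show 0 ≤ lg k i j
    unfold lg
    rw [if_neg hij', sub_zero]
    exact add_nonneg (l0_off_nonneg k i j hij') (br_nonneg k i j)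
  row := by
    intro i
    show ∑ j : Fin (8 * k + 2), lg k i j = 0
    rw [Fin.sum_univ_eq_sum_range (fun j => lg k i j) (8 * k + 2)]
    unfold lg
    rw [Finset.sum_sub_distrib, Finset.sum_add_distrib, l0_row k hk i i.2, Finset.sum_ite_eq,
      if_pos (by rw [mem_range]; exact i.2)]
    ring

theorem Lc_diff (k : ℕ) (i : Fin (8 * k + 2)) : ∑ j, |L0 k i j - Lc k i j| ≤ 4 * be k := by
  have h1 : ∀ j : Fin (8 * k + 2), |L0 k i j - Lc k i j| ≤
      br k i j + if (i : ℕ) = j then ∑ l ∈ range (8 * k + 2), br k i l else 0 := by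
    intro j
    have e : L0 k i j - Lc k i j =
        -br k i j + if (i : ℕ) = j then ∑ l ∈ range (8 * k + 2), br k i l else 0 := by
      show l0 k i j - lg k i j = _
      unfold lg; ring
    rw [e]
    refine (abs_add_le _ _).trans ?_
    rw [abs_neg, abs_of_nonneg (br_nonneg k i j)]
    refine add_le_add_right ?_ _
    split_ifs
    · rw [abs_of_nonneg (Finset.sum_nonneg fun l _ => br_nonneg k i l)]
    · rw [abs_zero]
  refine (Finset.sum_le_sum fun j _ => h1 j).trans ?_
  rw [Fin.sum_univ_eq_sum_range (fun j => br k i j +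
    if (i : ℕ) = j then ∑ l ∈ range (8 * k + 2), br k i l else 0) (8 * k + 2),
    Finset.sum_add_distrib, Finset.sum_ite_eq, if_pos (by rw [mem_range]; exact i.2)]
  have := br_sum_le k i i.2
  linarith

/-- the normalising constant -/
noncomputable def zs (k : ℕ) : ℝ := ∑ i ∈ range (8 * k + 2), wt k i

theorem one_le_zs (k : ℕ) : 1 ≤ zs k := by
  have h : wt k (8 * k + 1) = 1 := by unfold wt; rw [Nat.sub_self, pow_zero]
  rw [← h]
  exact Finset.single_le_sum (f := fun i => wt k i) (fun i _ => (wt_pos k i).le)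
    (by rw [mem_range]; omega)

theorem zs_le (k : ℕ) (hk : 2 ≤ k) : zs k ≤ 2 := by
  have h1 : zs k = ∑ j ∈ range (8 * k + 2), be k ^ j := by
    unfold zs wt
    rw [← Finset.sum_range_reflect (fun j => be k ^ j) (8 * k + 2)]
    refine Finset.sum_congr rfl fun j hj => ?_
    congr 1
  have hb := be_le k hk
  have hb0 := be_pos k
  have h2 : ∑ j ∈ range (8 * k + 2), be k ^ j ≤ ∑' j : ℕ, be k ^ j :=
    (summable_geometric_of_lt_one hb0.le (by linarith)).sum_le_tsum _ fun i _ => by positivity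
  rw [tsum_geometric_of_lt_one hb0.le (by linarith)] at h2
  rw [h1]
  refine h2.trans ?_
  rw [inv_le_comm₀ (by linarith) (by norm_num)]
  linarith

/-- the stationary distribution -/
noncomputable def lw (k i : ℕ) : ℝ := wt k i / zs k

theorem lw_pos (k i : ℕ) : 0 < lw k i := div_pos (wt_pos k i) (by linarith [one_le_zs k])

theorem lw_le_wt (k i : ℕ) : lw k i ≤ wt k i := div_le_self (wt_pos k i).le (one_le_zs k)

theorem lw_sum (k : ℕ) : ∑ i ∈ range (8 * k + 2), lw k i = 1 := by
  unfold lw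
  rw [← Finset.sum_div]
  exact div_self (by have := one_le_zs k; unfold zs at this; linarith)

theorem lw_rev (k i j : ℕ) : lw k i * lg k i j = lw k j * lg k j i := by
  by_cases h : i = j
  · rw [h]
  · unfold lg lw br
    rw [if_neg h, if_neg h, if_neg (fun e => h e.symm), if_neg (fun e => h e.symm)]
    have h1 := (wt_pos k i).ne'
    have h2 := (wt_pos k j).ne'
    have h3 : zs k ≠ 0 := by have := one_le_zs k; linarith
    field_simp
    ring

theorem lw_last (k : ℕ) : lw k (8 * k + 1) = 1 / zs k := by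
  unfold lw wt
  rw [Nat.sub_self, pow_zero]

theorem neg_log_lw_last_nonneg (k : ℕ) : 0 ≤ -Real.log (lw k (8 * k + 1)) := by
  rw [lw_last, one_div, Real.log_inv, neg_neg]
  exact Real.log_nonneg (one_le_zs k)

theorem log_zs_le (k : ℕ) (hk : 2 ≤ k) : Real.log (zs k) ≤ 1 := by
  have h1 := one_le_zs k
  have := Real.log_le_sub_one_of_pos (show 0 < zs k by linarith)
  have := zs_le k hk
  linarith

theorem neg_log_lw_last_le (k : ℕ) (hk : 2 ≤ k) : -Real.log (lw k (8 * k + 1)) ≤ 1 := by
  rw [lw_last, one_div, Real.log_inv, neg_neg]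
  exact log_zs_le k hk

theorem half_le_lw_last (k : ℕ) (hk : 2 ≤ k) : 1 / 2 ≤ lw k (8 * k + 1) := by
  rw [lw_last]
  exact one_div_le_one_div_of_le (by have := one_le_zs k; linarith) (zs_le k hk)

theorem neg_log_lw_le (k : ℕ) (hk : 2 ≤ k) (i : ℕ) :
    -Real.log (lw k i) ≤ (k : ℝ) * (8 * k + 1) + 1 := by
  unfold lw wt be
  have hz := one_le_zs k
  rw [Real.log_div (by positivity) (by linarith), Real.log_pow, Real.log_exp]
  have h1 := log_zs_le k hk
  have h2 : ((8 * k + 1 - i : ℕ) : ℝ) ≤ 8 * k + 1 := by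
    have : (8 * k + 1 - i : ℕ) ≤ 8 * k + 1 := Nat.sub_le _ _
    exact_mod_cast this
  have h3 := mul_le_mul_of_nonneg_right h2 (Nat.cast_nonneg (α := ℝ) k)
  linarith

theorem lw_small (k : ℕ) : ∑ j ∈ range (7 * k + 1), lw k j ≤ 8 * Real.exp (-(k : ℝ) ^ 2) := by
  have h1 : ∀ j ∈ range (7 * k + 1), lw k j ≤ be k ^ (k + 1) := by
    intro j hj
    rw [mem_range] at hj
    refine (lw_le_wt k j).trans ?_
    unfold wt
    exact pow_le_pow_of_le_one (be_pos k).le (be_le_one k) (by omega)
  refine (Finset.sum_le_card_nsmul _ _ _ h1).trans ?_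
  rw [card_range, nsmul_eq_mul, pow_succ]
  have e1 : be k ^ k = Real.exp (-(k : ℝ) ^ 2) := by
    unfold be
    rw [← Real.exp_nat_mul]; congr 1; ring
  rw [e1]
  have e2 : (k : ℝ) * be k ≤ 1 := by
    unfold be
    have := Real.add_one_le_exp (k : ℝ)
    rw [Real.exp_neg, mul_inv_le_iff₀ (Real.exp_pos _)]
    linarith
  have e3 := be_le_one k
  have e4 : ((7 * k + 1 : ℕ) : ℝ) * be k ≤ 8 := by push_cast; nlinarith
  have e5 := mul_le_mul_of_nonneg_right e4 (Real.exp_pos (-(k : ℝ) ^ 2)).le
  calc ((7 * k + 1 : ℕ) : ℝ) * (Real.exp (-(k : ℝ) ^ 2) * be k)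
      = ((7 * k + 1 : ℕ) : ℝ) * be k * Real.exp (-(k : ℝ) ^ 2) := by ring
    _ ≤ _ := e5

end Pool.Agent.R973.Cut
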