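import Pool.Agent.R973.Cut.Birth

/-!
# Tail bounds for the pure birth chain
-/

set_option autoImplicit false

open Finset

namespace Pool.Agent.R973.Cut

theorem sum_pois_le_one (n : ℕ) {t : ℝ} (ht : 0 ≤ t) : ∑ l ∈ range n, pois l t ≤ 1 := by
  have h := Real.sum_le_exp_of_nonneg ht n
  calc ∑ l ∈ range n, pois l t = Real.exp (-t) * ∑ l ∈ range n, t ^ l / l.factorial := by
        rw [Finset.mul_sum]
        exact Finset.sum_congr rfl fun l _ => by unfold pois; ring
    _ ≤ Real.exp (-t) * Real.exp t := mul_le_mul_of_nonneg_left h (Real.exp_pos _).le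
    _ = 1 := by rw [← Real.exp_add, neg_add_cancel, Real.exp_zero]

/-- the lower tail of the Poisson distribution -/
theorem sum_pois_le (k : ℕ) :
    ∑ l ∈ range (4 * k + 1), pois l (5 * k) ≤ (9 / 10 : ℝ) ^ k := by
  have hk : (0 : ℝ) ≤ k := Nat.cast_nonneg k
  have h1 : ∀ l ∈ range (4 * k + 1), pois l (5 * (k : ℝ)) ≤
      (5 / 4 : ℝ) ^ (4 * k) * (Real.exp (-(5 * k)) * ((4 * k : ℝ) ^ l / l.factorial)) := by
    intro l hl
    rw [mem_range] at hl
    have e1 : (5 * (k : ℝ)) ^ l = (5 / 4 : ℝ) ^ l * (4 * k : ℝ) ^ l := by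
      rw [← mul_pow]; congr 1; ring
    have e2 : (5 / 4 : ℝ) ^ l ≤ (5 / 4 : ℝ) ^ (4 * k) :=
      pow_le_pow_right₀ (by norm_num) (by omega)
    have e3 : 0 ≤ Real.exp (-(5 * k)) * ((4 * k : ℝ) ^ l / l.factorial) := by positivity
    calc pois l (5 * (k : ℝ)) =
          (5 / 4 : ℝ) ^ l * (Real.exp (-(5 * k)) * ((4 * k : ℝ) ^ l / l.factorial)) := by
          unfold pois; rw [e1]; ring
      _ ≤ _ := mul_le_mul_of_nonneg_right e2 e3
  refine (Finset.sum_le_sum h1).trans ?_
  rw [← Finset.mul_sum, ← Finset.mul_sum]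
  have h2 := Real.sum_le_exp_of_nonneg (x := 4 * (k : ℝ)) (by positivity) (4 * k + 1)
  have h3 : (5 / 4 : ℝ) ^ (4 * k) * (Real.exp (-(5 * k)) *
      ∑ l ∈ range (4 * k + 1), (4 * k : ℝ) ^ l / l.factorial) ≤
      (5 / 4 : ℝ) ^ (4 * k) * (Real.exp (-(5 * k)) * Real.exp (4 * k)) := by
    gcongr
  refine h3.trans ?_
  have e4 : Real.exp (-(5 * (k : ℝ))) * Real.exp (4 * k) = (Real.exp (-1)) ^ k := by
    rw [← Real.exp_add, ← Real.exp_nat_mul]; congr 1; ring
  rw [e4, pow_mul, ← mul_pow]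
  refine pow_le_pow_left₀ (by positivity) ?_ k
  have e5 : Real.exp (-1) = (Real.exp 1)⁻¹ := Real.exp_neg 1
  rw [e5]
  have e6 := Real.exp_one_gt_d9
  rw [mul_inv_le_iff₀ (Real.exp_pos 1)]
  norm_num at e6 ⊢
  linarith

/-- the upper tail of the Poisson distribution -/
theorem one_sub_le_sum_pois (n : ℕ) {t : ℝ} (ht : 0 ≤ t) :
    1 - t / (n + 1) ≤ ∑ l ∈ range (n + 1), pois l t := by
  have hs : HasSum (fun l : ℕ => t ^ l / l.factorial) (Real.exp t) := by
    have := NormedSpace.expSeries_div_hasSum_exp (𝔸 := ℝ) t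
    rwa [← Real.exp_eq_exp_ℝ] at this
  have h1 := hs.summable.sum_add_tsum_nat_add (n + 1)
  have h2 := hs.summable.sum_add_tsum_nat_add n
  rw [hs.tsum_eq] at h1 h2
  have h3 : ∑' l : ℕ, t ^ (l + (n + 1)) / (l + (n + 1)).factorial ≤
      (t / (n + 1)) * ∑' l : ℕ, t ^ (l + n) / (l + n).factorial := by
    rw [← tsum_mul_left]
    refine Summable.tsum_le_tsum (fun l => ?_) ((summable_nat_add_iff (n + 1)).2 hs.summable)
      (((summable_nat_add_iff n).2 hs.summable).mul_left _)
    have e1 : l + (n + 1) = (l + n) + 1 := by ring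
    rw [e1, pow_succ, Nat.factorial_succ]
    push_cast
    have e2 : t ^ (l + n) * t / (((l : ℝ) + n + 1) * (l + n).factorial) =
        (t / (l + n + 1)) * (t ^ (l + n) / (l + n).factorial) := by
      field_simp
    rw [e2]
    refine mul_le_mul_of_nonneg_right ?_ (by positivity)
    refine div_le_div_of_nonneg_left ht (by positivity) ?_
    have : (0 : ℝ) ≤ l := Nat.cast_nonneg l
    linarith
  have h4 : ∑' l : ℕ, t ^ (l + n) / (l + n).factorial ≤ Real.exp t := by
    rw [← h2]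
    have : 0 ≤ ∑ i ∈ range n, t ^ i / (i.factorial : ℝ) :=
      Finset.sum_nonneg fun i _ => by positivity
    linarith
  have h5 : (t / (n + 1)) * ∑' l : ℕ, t ^ (l + n) / (l + n).factorial ≤
      (t / (n + 1)) * Real.exp t := mul_le_mul_of_nonneg_left h4 (by positivity)
  have h6 : Real.exp t * (1 - t / (n + 1)) ≤ ∑ i ∈ range (n + 1), t ^ i / (i.factorial : ℝ) := by
    have : Real.exp t * (1 - t / (n + 1)) = Real.exp t - (t / (n + 1)) * Real.exp t := by ring
    linarith
  have h7 := mul_le_mul_of_nonneg_left h6 (Real.exp_pos (-t)).le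
  have h8 : Real.exp (-t) * (Real.exp t * (1 - t / (n + 1))) = 1 - t / (n + 1) := by
    rw [← mul_assoc, ← Real.exp_add, neg_add_cancel, Real.exp_zero, one_mul]
  rw [h8] at h7
  refine h7.trans_eq ?_
  rw [Finset.mul_sum]
  exact Finset.sum_congr rfl fun l _ => by unfold pois; ring

theorem sum_shift_le (f : ℕ → ℝ) (hf : ∀ l, 0 ≤ f l) (i n N : ℕ) :
    ∑ j ∈ range N, (if i ≤ j ∧ j - i ≤ n then f (j - i) else 0) ≤ ∑ l ∈ range (n + 1), f l := by
  rw [← Finset.sum_filter]
  have hinj : Set.InjOn (fun j => j - i)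
      ((range N).filter (fun j => i ≤ j ∧ j - i ≤ n) : Finset ℕ) := by
    intro a ha b hb hab
    simp only [coe_filter, Set.mem_ofPred_eq] at ha hb
    simp only at hab
    omega
  rw [← Finset.sum_image (f := f) (g := fun j => j - i) hinj]
  refine Finset.sum_le_sum_of_subset_of_nonneg ?_ fun l _ _ => hf l
  intro l hl
  rw [Finset.mem_image] at hl
  obtain ⟨j, hj, rfl⟩ := hl
  rw [Finset.mem_filter] at hj
  rw [mem_range]
  omega

/-- the probability not to be in the absorbing state -/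
theorem sum_kern_le (k : ℕ) {t : ℝ} (ht : 0 ≤ t) (i : ℕ) :
    ∑ j ∈ range (8 * k + 1), kern k t i j ≤ ∑ l ∈ range (4 * k + 1), pois l t + q k := by
  have h1 : ∀ j ∈ range (8 * k + 1), kern k t i j ≤
      (if i ≤ j ∧ j - i ≤ 4 * k then pois (j - i) t else 0) +
      q k * (if i ≤ j ∧ j - i ≤ 8 * k then pois (j - i) t else 0) := by
    intro j hj
    rw [mem_range] at hj
    have hp := pois_nonneg (j - i) ht
    have hq := q_nonneg k
    unfold kern
    by_cases hij : i ≤ j
    · rw [if_pos hij, if_pos (show i ≤ j ∧ j - i ≤ 8 * k by omega)]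
      by_cases h : i ≤ 4 * k ∧ 4 * k < j
      · rw [if_pos h]
        split_ifs <;> linarith
      · rw [if_neg h, if_pos (show i ≤ j ∧ j - i ≤ 4 * k by omega)]
        have := mul_nonneg hq hp
        linarith
    · rw [if_neg hij]
      split_ifs <;> positivity
  refine (Finset.sum_le_sum h1).trans ?_
  rw [Finset.sum_add_distrib, ← Finset.mul_sum]
  refine add_le_add (sum_shift_le (fun l => pois l t) (fun l => pois_nonneg l ht) i _ _) ?_
  have h2 := (sum_shift_le (fun l => pois l t) (fun l => pois_nonneg l ht) i (8 * k)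
    (8 * k + 1)).trans (sum_pois_le_one (8 * k + 1) ht)
  exact mul_le_of_le_one_right (q_nonneg k) h2

theorem le_kern_zero (k : ℕ) {t : ℝ} (ht : 0 ≤ t) (j : ℕ) : q k * pois j t ≤ kern k t 0 j := by
  have hp := pois_nonneg j ht
  have hq := q_le_one k
  unfold kern
  rw [if_pos (Nat.zero_le j), Nat.sub_zero]
  split_ifs
  · exact le_refl _
  · exact mul_le_mul_of_nonneg_right hq hp

theorem slow_lower (k : ℕ) {t : ℝ} (ht : 0 ≤ t) (ht6 : t ≤ 6 * k) :
    q k / 7 ≤ ∑ j ∈ range (7 * k + 1), kern k t 0 j := by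
  calc q k / 7 ≤ q k * ∑ j ∈ range (7 * k + 1), pois j t := by
        have h := one_sub_le_sum_pois (7 * k) ht
        have h2 : (1 : ℝ) / 7 ≤ 1 - t / ((7 * k : ℕ) + 1) := by
          push_cast
          have : t / (7 * (k : ℝ) + 1) ≤ 6 / 7 := by
            rw [div_le_div_iff₀ (by positivity) (by norm_num)]
            nlinarith
          linarith
        have := mul_le_mul_of_nonneg_left (h2.trans h) (q_nonneg k)
        linarith
    _ = ∑ j ∈ range (7 * k + 1), q k * pois j t := Finset.mul_sum _ _ _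
    _ ≤ _ := Finset.sum_le_sum fun j _ => le_kern_zero k ht j

theorem fast_lower (k : ℕ) {t : ℝ} (ht : 0 ≤ t) :
    1 - t / (4 * k + 1) ≤ ∑ j ∈ range (4 * k + 1), kern k t 0 j := by
  have h := one_sub_le_sum_pois (4 * k) ht
  push_cast at h
  refine h.trans_eq (Finset.sum_congr rfl fun j hj => ?_)
  rw [mem_range] at hj
  unfold kern
  rw [if_pos (Nat.zero_le j), Nat.sub_zero, if_neg (by omega), one_mul]

end Pool.Agent.R973.Cut
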